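import Pool.Agent.H28.VM.Targets

set_option autoImplicit false

open MeasureTheory

namespace Pool.Agent.H28.VM

/-! ### `ee` -/

@[simp] theorem norm_ee (x : ℝ) : ‖ee x‖ = 1 := by
  unfold ee; exact Complex.norm_exp_ofReal_mul_I x

theorem ee_add (x y : ℝ) : ee (x + y) = ee x * ee y := by
  unfold ee; rw [← Complex.exp_add]; push_cast; ring_nf

@[simp] theorem ee_zero : ee 0 = 1 := by simp [ee]

theorem ee_ne_zero (x : ℝ) : ee x ≠ 0 := Complex.exp_ne_zero _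

theorem ee_neg (x : ℝ) : ee (-x) = (starRingEnd ℂ) (ee x) := by
  unfold ee
  rw [← Complex.exp_conj]
  simp

theorem ee_sub (x y : ℝ) : ee (x - y) = ee x * ee (-y) := by
  rw [sub_eq_add_neg, ee_add]

@[fun_prop] theorem continuous_ee : Continuous ee := by
  unfold ee; fun_prop

theorem ee_two_pi_int (n : ℤ) : ee (2 * Real.pi * n) = 1 := by
  unfold ee
  rw [Complex.exp_eq_one_iff]
  exact ⟨n, by push_cast; ring⟩

theorem ee_add_two_pi_int (x : ℝ) (n : ℤ) : ee (x + 2 * Real.pi * n) = ee x := by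
  rw [ee_add, ee_two_pi_int, mul_one]

/-! ### `nm` -/

theorem nm_nonneg (k : ℤ × ℤ) : 0 ≤ nm k := Real.sqrt_nonneg _

theorem nm_sq (k : ℤ × ℤ) : nm k ^ 2 = (k.1 : ℝ) ^ 2 + (k.2 : ℝ) ^ 2 :=
  Real.sq_sqrt (by positivity)

@[simp] theorem nm_zero : nm 0 = 0 := by simp [nm]

@[simp] theorem nm_neg (k : ℤ × ℤ) : nm (-k) = nm k := by simp [nm]

theorem abs_fst_le_nm (k : ℤ × ℤ) : |(k.1 : ℝ)| ≤ nm k := by
  apply Real.abs_le_sqrt; nlinarith [sq_nonneg (k.2 : ℝ)]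

theorem abs_snd_le_nm (k : ℤ × ℤ) : |(k.2 : ℝ)| ≤ nm k := by
  apply Real.abs_le_sqrt; nlinarith [sq_nonneg (k.1 : ℝ)]

theorem nm_le_abs_add_abs (k : ℤ × ℤ) : nm k ≤ |(k.1 : ℝ)| + |(k.2 : ℝ)| := by
  apply Real.sqrt_le_iff.mpr
  refine ⟨by positivity, ?_⟩
  have h1 := sq_abs (k.1 : ℝ)
  have h2 := sq_abs (k.2 : ℝ)
  nlinarith [mul_nonneg (abs_nonneg (k.1 : ℝ)) (abs_nonneg (k.2 : ℝ))]

/-- Cauchy–Schwarz -/
theorem abs_inner_le (a b : ℤ × ℤ) :
    |(a.1 : ℝ) * b.1 + (a.2 : ℝ) * b.2| ≤ nm a * nm b := by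
  apply abs_le_of_sq_le_sq _ (mul_nonneg (nm_nonneg a) (nm_nonneg b))
  rw [mul_pow, nm_sq, nm_sq]
  nlinarith [sq_nonneg ((a.1 : ℝ) * b.2 - (a.2 : ℝ) * b.1)]

theorem nm_add_le (a b : ℤ × ℤ) : nm (a + b) ≤ nm a + nm b := by
  have h := abs_inner_le a b
  have h2 := (abs_le.mp h).2
  apply Real.sqrt_le_iff.mpr
  refine ⟨add_nonneg (nm_nonneg a) (nm_nonneg b), ?_⟩
  simp only [Prod.fst_add, Prod.snd_add]
  push_cast
  nlinarith [nm_sq a, nm_sq b]

theorem nm_sub_le (a b : ℤ × ℤ) : nm (a - b) ≤ nm a + nm b := by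
  have := nm_add_le a (-b); simpa [sub_eq_add_neg] using this

theorem nm_sub_nm_le (a b : ℤ × ℤ) : nm a - nm b ≤ nm (a + b) := by
  have := nm_sub_le (a + b) b
  simp only [add_sub_cancel_right] at this
  linarith

theorem abs_nm_add_sub_le (a b : ℤ × ℤ) : |nm (a + b) - nm a| ≤ nm b := by
  rw [abs_le]; constructor
  · linarith [nm_sub_nm_le a b]
  · linarith [nm_add_le a b]

theorem one_le_nm {k : ℤ × ℤ} (hk : k ≠ 0) : 1 ≤ nm k := by
  apply Real.one_le_sqrt.mpr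
  have h : (1 : ℤ) ≤ k.1 ^ 2 + k.2 ^ 2 := by
    by_contra hcon
    have h0 : k.1 ^ 2 + k.2 ^ 2 = 0 := by
      have : 0 ≤ k.1 ^ 2 + k.2 ^ 2 := by positivity
      omega
    have h1 : k.1 = 0 := by nlinarith [sq_nonneg k.1, sq_nonneg k.2]
    have h2 : k.2 = 0 := by nlinarith [sq_nonneg k.1, sq_nonneg k.2]
    exact hk (Prod.ext h1 h2)
  exact_mod_cast h

/-! ### windows -/

theorem mem_IJ {J : ℕ} {l : ℤ} : l ∈ IJ J ↔ l.natAbs ≤ J := by
  unfold IJ; rw [Finset.mem_Icc]; omega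

theorem mem_IJ' {J : ℕ} {l : ℤ} : l ∈ IJ J ↔ |l| ≤ (J : ℤ) := by
  rw [mem_IJ, Int.abs_eq_natAbs]; omega

theorem zero_mem_IJ (J : ℕ) : (0 : ℤ) ∈ IJ J := by rw [mem_IJ]; simp

theorem win_nonneg (J : ℕ) (l : ℤ) : 0 ≤ win J l := by
  unfold win; split_ifs <;> positivity

theorem win_eq_zero {J : ℕ} {l : ℤ} (h : J < l.natAbs) : win J l = 0 := by
  unfold win; rw [if_neg (by omega)]

/-- summation over `[-J,J]` as a sum over `range (2J+1)` -/
theorem sum_IJ_eq_sum_range {α : Type*} [AddCommMonoid α] (J : ℕ) (f : ℤ → α) :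
    ∑ l ∈ IJ J, f l = ∑ i ∈ Finset.range (2 * J + 1), f ((i : ℤ) - J) := by
  symm
  refine Finset.sum_bij (fun (i : ℕ) _ => ((i : ℤ) - J)) ?_ ?_ ?_ ?_
  · intro i hi; rw [Finset.mem_range] at hi; rw [mem_IJ]; omega
  · intro i _ j _ hij; simpa using hij
  · intro l hl
    rw [mem_IJ] at hl
    exact ⟨(l + J).toNat, by rw [Finset.mem_range]; omega, by omega⟩
  · intro i _; rfl

theorem win_sub (J i : ℕ) (hi : i < 2 * J + 1) :
    win J ((i : ℤ) - J) = ((2 * J).choose i : ℝ) / 4 ^ J := by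
  unfold win
  rw [if_pos (by omega)]
  congr 3
  omega

/-- generating function of the window -/
theorem win_gen (J : ℕ) (s : ℂ) :
    ∑ l ∈ IJ J, (win J l : ℂ) * Complex.exp ((l : ℂ) * s * Complex.I) =
      Complex.cos (s / 2) ^ (2 * J) := by
  rw [sum_IJ_eq_sum_range]
  have h1 : ∀ i ∈ Finset.range (2 * J + 1),
      (win J ((i : ℤ) - J) : ℂ) * Complex.exp ((((i : ℤ) - J : ℤ) : ℂ) * s * Complex.I) =
        Complex.exp (s / 2 * Complex.I) ^ i * Complex.exp (-(s / 2) * Complex.I) ^ (2 * J - i) *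
          ((2 * J).choose i : ℂ) / 4 ^ J := by
    intro i hi
    rw [Finset.mem_range] at hi
    rw [win_sub J i hi, ← Complex.exp_nat_mul, ← Complex.exp_nat_mul, ← Complex.exp_add]
    push_cast
    rw [Nat.cast_sub (by omega)]
    push_cast
    have : (i : ℂ) * (s / 2 * Complex.I) + (2 * (J : ℂ) - i) * (-(s / 2) * Complex.I) =
        ((i : ℂ) - J) * s * Complex.I := by ring
    rw [this]; ring
  rw [Finset.sum_congr rfl h1, ← Finset.sum_div, ← add_pow]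
  rw [show Complex.cos (s / 2) = (Complex.exp (s / 2 * Complex.I) +
    Complex.exp (-(s / 2) * Complex.I)) / 2 from rfl, div_pow]
  congr 1
  rw [pow_mul]; norm_num

theorem win_gen_real (J : ℕ) (x : ℝ) :
    ∑ l ∈ IJ J, (win J l : ℂ) * ee ((l : ℝ) * x) = ((Real.cos (x / 2) ^ (2 * J) : ℝ) : ℂ) := by
  have := win_gen J (x : ℂ)
  push_cast
  rw [← this]
  refine Finset.sum_congr rfl fun l _ => ?_
  unfold ee; push_cast; rfl

theorem win_sum (J : ℕ) : ∑ l ∈ IJ J, win J l = 1 := by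
  have h := win_gen_real J 0
  simp only [mul_zero, ee_zero, mul_one, zero_div, Real.cos_zero, one_pow] at h
  exact_mod_cast h

theorem win_le_one (J : ℕ) (l : ℤ) : win J l ≤ 1 := by
  by_cases h : l ∈ IJ J
  · rw [← win_sum J]
    exact Finset.single_le_sum (f := fun l => win J l) (fun i _ => win_nonneg J i) h
  · rw [mem_IJ] at h; rw [win_eq_zero (by omega)]; norm_num

theorem win_zero (J : ℕ) : win J 0 = ((2 * J).choose J : ℝ) / 4 ^ J := by
  have := win_sub J J (by omega)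
  simpa using this

theorem win_le_win_zero (J : ℕ) (l : ℤ) : win J l ≤ win J 0 := by
  rw [win_zero]
  unfold win
  split_ifs with h
  · gcongr
    have := Nat.choose_le_centralBinom ((J : ℤ) + l).toNat J
    rwa [Nat.centralBinom_eq_two_mul_choose] at this
  · positivity

theorem one_le_mul_win_zero (J : ℕ) : 1 ≤ (2 * (J : ℝ) + 1) * win J 0 := by
  have h : ∑ l ∈ IJ J, win J l ≤ ∑ _l ∈ IJ J, win J 0 :=
    Finset.sum_le_sum fun l _ => win_le_win_zero J l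
  rw [win_sum, Finset.sum_const] at h
  have hc : (IJ J).card = 2 * J + 1 := by
    unfold IJ; rw [Int.card_Icc]; omega
  rw [hc, nsmul_eq_mul] at h
  push_cast at h
  exact h

theorem win_zero_pos (J : ℕ) : 0 < win J 0 := by
  have h := one_le_mul_win_zero J
  by_contra hc
  have : win J 0 = 0 := le_antisymm (not_lt.mp hc) (win_nonneg J 0)
  rw [this] at h; norm_num at h

theorem win_neg (J : ℕ) (l : ℤ) : win J (-l) = win J l := by
  unfold win
  simp only [Int.natAbs_neg]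
  split_ifs with h
  · congr 2
    have h2 : ((J : ℤ) + l).toNat ≤ 2 * J := by omega
    rw [← Nat.choose_symm h2]
    congr 1
    omega
  · rfl

/-! ### lines -/

theorem pe_sh (k : ℤ × ℤ) (l : ℤ) (w : ℤ × ℤ) : pe (sh k l w) w = pe k w := by
  unfold pe sh; ring

theorem al_sh (k : ℤ × ℤ) (l : ℤ) (w : ℤ × ℤ) :
    al (sh k l w) w = al k w + l * (w.1 ^ 2 + w.2 ^ 2) := by
  unfold al sh; ring

theorem JJ_sh (L : ℕ) (k : ℤ × ℤ) (l : ℤ) (w : ℤ × ℤ) : JJ L w (sh k l w) = JJ L w k := by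
  unfold JJ; rw [pe_sh]

theorem sh_eq (k : ℤ × ℤ) (l : ℤ) (w : ℤ × ℤ) : sh k l w = k + (l * w.1, l * w.2) := rfl

theorem al_pe_sq (k w : ℤ × ℤ) :
    (al k w : ℝ) ^ 2 + (pe k w : ℝ) ^ 2 = nm k ^ 2 * nm w ^ 2 := by
  rw [nm_sq, nm_sq]; unfold al pe; push_cast; ring

theorem WW_cases {w : ℤ × ℤ} (h : w ∈ WW) : w = (1, 0) ∨ w = (0, 1) ∨ w = (1, 1) ∨ w = (1, -1) := by
  simpa [WW] using h

theorem WW_norm {w : ℤ × ℤ} (h : w ∈ WW) : w.1 ^ 2 + w.2 ^ 2 = 1 ∨ w.1 ^ 2 + w.2 ^ 2 = 2 := by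
  rcases WW_cases h with rfl | rfl | rfl | rfl <;> simp

/-! ### solutions -/

theorem summable_v {c : ℤ × ℤ → ℂ} (hc : Summable fun k => ‖c k‖) (t : ℝ) (z : ℝ × ℝ) :
    Summable fun k => c k * ee (dt k z - nm k * t) := by
  refine Summable.of_norm ?_
  simpa using hc

theorem continuous_v {c : ℤ × ℤ → ℂ} (hc : Summable fun k => ‖c k‖) :
    Continuous fun p : ℝ × (ℝ × ℝ) => v c p.1 p.2 := by
  unfold v
  refine continuous_tsum (fun k => ?_) hc (fun k p => ?_)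
  · unfold dt; fun_prop
  · simp

theorem continuous_u {c : ℤ × ℤ → ℂ} (hc : Summable fun k => ‖c k‖) :
    Continuous fun p : ℝ × (ℝ × ℝ) => u c p.1 p.2 := by
  unfold u
  exact continuous_const.mul (Complex.continuous_re.comp (continuous_v hc))

theorem norm_v_le {c : ℤ × ℤ → ℂ} (hc : Summable fun k => ‖c k‖) (t : ℝ) (z : ℝ × ℝ) :
    ‖v c t z‖ ≤ ∑' k, ‖c k‖ := by
  unfold v
  refine (norm_tsum_le_tsum_norm (by simpa using hc)).trans (le_of_eq ?_)
  simp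

theorem u_eq (c : ℤ × ℤ → ℂ) (t : ℝ) (z : ℝ × ℝ) :
    ((u c t z : ℝ) : ℂ) = v c t z + (starRingEnd ℂ) (v c t z) := by
  rw [Complex.add_conj]; unfold u; push_cast; ring

end Pool.Agent.H28.VM
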