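import Pool.Agent.H28.VM.Basic

set_option autoImplicit false

open MeasureTheory

namespace Pool.Agent.H28.VM

/-! ### Orthogonality on the torus -/

theorem integral_ee_int (m : ℤ) :
    ∫ x in Set.Icc (-Real.pi) Real.pi, ee ((m : ℝ) * x) = if m = 0 then (2 * Real.pi : ℂ) else 0 := by
  rw [integral_Icc_eq_integral_Ioc, ← intervalIntegral.integral_of_le (by linarith [Real.pi_pos])]
  split_ifs with h
  · subst h
    simp
    ring
  · have hm : ((m : ℂ) * Complex.I) ≠ 0 := by
      simp [h]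
    have h1 : ∀ x : ℝ, ee ((m : ℝ) * x) = Complex.exp (((m : ℂ) * Complex.I) * x) := by
      intro x; unfold ee; push_cast; ring_nf
    simp_rw [h1]
    rw [integral_exp_mul_complex hm]
    have h2 : Complex.exp ((m : ℂ) * Complex.I * (Real.pi : ℝ)) =
        Complex.exp ((m : ℂ) * Complex.I * ((-Real.pi : ℝ) : ℂ)) := by
      rw [Complex.exp_eq_exp_iff_exists_int]
      exact ⟨m, by push_cast; ring⟩
    rw [h2, sub_self, zero_div]

theorem ee_dt (m : ℤ × ℤ) (z : ℝ × ℝ) :
    ee (dt m z) = ee ((m.1 : ℝ) * z.1) * ee ((m.2 : ℝ) * z.2) := by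
  unfold dt; rw [ee_add]

/-- orthogonality of characters on `Box` -/
theorem integral_box_ee (m : ℤ × ℤ) :
    ∫ z in Box, ee (dt m z) = if m = 0 then ((2 * Real.pi) ^ 2 : ℂ) else 0 := by
  unfold Box
  simp_rw [ee_dt]
  rw [Measure.volume_eq_prod, setIntegral_prod_mul (fun x : ℝ => ee ((m.1 : ℝ) * x))
    (fun x : ℝ => ee ((m.2 : ℝ) * x)), integral_ee_int, integral_ee_int]
  by_cases h1 : m.1 = 0 <;> by_cases h2 : m.2 = 0
  · rw [if_pos h1, if_pos h2, if_pos (Prod.ext h1 h2)]; ring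
  · rw [if_pos h1, if_neg h2, if_neg (fun h => h2 (by rw [h]; rfl))]; ring
  · rw [if_neg h1, if_pos h2, if_neg (fun h => h1 (by rw [h]; rfl))]; ring
  · rw [if_neg h1, if_neg h2, if_neg (fun h => h1 (by rw [h]; rfl))]; ring

theorem measurableSet_Box : MeasurableSet Box := measurableSet_Icc.prod measurableSet_Icc

theorem isCompact_Box : IsCompact Box := isCompact_Icc.prod isCompact_Icc

theorem volume_Box_lt_top : volume Box < ⊤ := isCompact_Box.measure_lt_top

theorem volume_real_Box : volume.real Box = (2 * Real.pi) ^ 2 := by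
  unfold Box Measure.real
  rw [Measure.volume_eq_prod, Measure.prod_prod, Real.volume_Icc, ENNReal.toReal_mul,
    ENNReal.toReal_ofReal (by linarith [Real.pi_pos])]
  ring

@[fun_prop] theorem continuous_dt (k : ℤ × ℤ) : Continuous (dt k) := by
  unfold dt; fun_prop

theorem dt_sub (a b : ℤ × ℤ) (z : ℝ × ℝ) : dt (a - b) z = dt a z - dt b z := by
  unfold dt; simp only [Prod.fst_sub, Prod.snd_sub]; push_cast; ring

theorem dt_add (a b : ℤ × ℤ) (z : ℝ × ℝ) : dt (a + b) z = dt a z + dt b z := by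
  unfold dt; simp only [Prod.fst_add, Prod.snd_add]; push_cast; ring

theorem dt_neg (a : ℤ × ℤ) (z : ℝ × ℝ) : dt (-a) z = -dt a z := by
  unfold dt; simp only [Prod.fst_neg, Prod.snd_neg]; push_cast; ring

/-- `h(|z|²)` vanishes outside `Box`. -/
theorem cut_eq_zero_of_not_mem_Box {h : ℝ → ℝ} (hh : Cut h) {z : ℝ × ℝ} (hz : z ∉ Box) :
    h (z.1 ^ 2 + z.2 ^ 2) = 0 := by
  apply hh.zero
  have hpi := Real.pi_gt_three
  by_contra hcon
  push Not at hcon
  apply hz
  have h1 : |z.1| < Real.pi := by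
    apply lt_of_lt_of_le (b := 3) _ hpi.le
    apply abs_lt_of_sq_lt_sq _ (by norm_num)
    nlinarith [sq_nonneg z.2]
  have h2 : |z.2| < Real.pi := by
    apply lt_of_lt_of_le (b := 3) _ hpi.le
    apply abs_lt_of_sq_lt_sq _ (by norm_num)
    nlinarith [sq_nonneg z.1]
  exact ⟨⟨(abs_lt.mp h1).1.le, (abs_lt.mp h1).2.le⟩, ⟨(abs_lt.mp h2).1.le, (abs_lt.mp h2).2.le⟩⟩

/-- the Fourier transform of the cutoff as an integral over `Box` -/
theorem integral_box_cut {h : ℝ → ℝ} (hh : Cut h) (k : ℤ × ℤ) :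
    ∫ z in Box, (h (z.1 ^ 2 + z.2 ^ 2) : ℂ) * ee (dt k z) = ft h k := by
  unfold ft
  apply setIntegral_eq_integral_of_forall_compl_eq_zero
  intro z hz
  rw [cut_eq_zero_of_not_mem_Box hh hz]; simp

theorem continuous_cut {h : ℝ → ℝ} (hh : Cut h) :
    Continuous fun z : ℝ × ℝ => h (z.1 ^ 2 + z.2 ^ 2) :=
  hh.smooth.continuous.comp (by fun_prop)

theorem Continuous.integrableOn_of_isCompact_box {E : Type*} [NormedAddCommGroup E]
    {g : ℝ × ℝ → E} (hg : Continuous g) : IntegrableOn g Box :=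
  hg.continuousOn.integrableOn_compact isCompact_Box

/-- termwise integration of `g v` over `Box` -/
theorem integral_box_mul_v {c : ℤ × ℤ → ℂ} (hc : Summable fun k => ‖c k‖) {g : ℝ × ℝ → ℂ}
    (hg : Continuous g) (s : ℝ) :
    ∫ z in Box, g z * v c s z =
      ∑' k, c k * ee (-(nm k * s)) * ∫ z in Box, g z * ee (dt k z) := by
  have hgi : IntegrableOn g Box := hg.continuousOn.integrableOn_compact isCompact_Box
  have h1 : ∀ k, ∫ z in Box, g z * (c k * ee (dt k z - nm k * s)) =
      c k * ee (-(nm k * s)) * ∫ z in Box, g z * ee (dt k z) := by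
    intro k
    rw [← integral_const_mul]
    congr 1; funext z
    rw [ee_sub]; ring
  have h2 : ∀ z, g z * v c s z = ∑' k, g z * (c k * ee (dt k z - nm k * s)) := by
    intro z; unfold v; rw [tsum_mul_left]
  simp_rw [h2]
  rw [← integral_tsum_of_summable_integral_norm]
  · exact tsum_congr h1
  · intro k
    refine Continuous.integrableOn_of_isCompact_box ?_
    fun_prop
  · have h3 : ∀ k, ∫ z in Box, ‖g z * (c k * ee (dt k z - nm k * s))‖ =
        ‖c k‖ * ∫ z in Box, ‖g z‖ := by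
      intro k
      rw [← integral_const_mul]
      congr 1; funext z
      rw [norm_mul, norm_mul, norm_ee]; ring
    simp_rw [h3]
    exact hc.mul_right _

end Pool.Agent.H28.VM
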