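import Pool.Agent.H28.VM.Targets

/-!
# Square membrane (MP_71a28e_an, S05034): reduction from the frozen statement to `T_core`
-/

set_option autoImplicit false

open MeasureTheory

namespace Pool.Agent.H28.VM

/-- The frozen positive statement `S05033` (verbatim). -/
def Frozen : Prop :=
    ∀ l : ℝ, 0 < l → ∀ T : ℝ, 0 < T →
      ∃ a b : ℕ → ℕ → ℝ, ∃ F : ℝ → ℝ × ℝ → ℝ,
        Summable (fun p : ℕ × ℕ =>
          (((p.1 : ℝ) + 1) ^ 2 + ((p.2 : ℝ) + 1) ^ 2) * (a p.1 p.2 ^ 2 + b p.1 p.2 ^ 2)) ∧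
        (∀ t : ℝ,
          MemLp (F t) 2 (volume.restrict (Set.Ioo (0 : ℝ) (2 * l) ×ˢ Set.Ioo (0 : ℝ) (2 * l))) ∧
          ∀ m n : ℕ,
            ∫ x in Set.Ioo (0 : ℝ) (2 * l) ×ˢ Set.Ioo (0 : ℝ) (2 * l),
                F t x * Real.sin (((m : ℝ) + 1) * Real.pi * x.1 / (2 * l))
                  * Real.sin (((n : ℝ) + 1) * Real.pi * x.2 / (2 * l))
              = l ^ 2 *
                (a m n * Real.cos (Real.pi / (2 * l)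
                    * Real.sqrt (((m : ℝ) + 1) ^ 2 + ((n : ℝ) + 1) ^ 2) * t)
                  + b m n * Real.sin (Real.pi / (2 * l)
                    * Real.sqrt (((m : ℝ) + 1) ^ 2 + ((n : ℝ) + 1) ^ 2) * t))) ∧
        ContinuousOn (fun p : ℝ × (ℝ × ℝ) => F p.1 p.2)
          (Set.Icc (0 : ℝ) T ×ˢ (Set.Ioo (0 : ℝ) l ×ˢ Set.Ioo (0 : ℝ) l)) ∧
        ∀ t ∈ Set.Icc (0 : ℝ) T, ∀ x ∈ Set.Ioo (0 : ℝ) l ×ˢ Set.Ioo (0 : ℝ) l, 0 < F t x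

/-- smooth functions supported in a compact subset of `(0,b)` -/
structure Sm (b : ℝ) (g : ℝ → ℝ) : Prop where
  smooth : ContDiff ℝ (⊤ : ℕ∞) g
  compact : HasCompactSupport g
  supp : tsupport g ⊆ Set.Ioo 0 b

/-- sine coefficient on `(0,π)` -/
noncomputable def sc (g : ℝ → ℝ) (n : ℕ) : ℝ :=
  ∫ x in Set.Ioo (0 : ℝ) Real.pi, g x * Real.sin (((n : ℝ) + 1) * x)

/-- (SINE) absolutely convergent sine series of a smooth function supported in `(0,π)`. -/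
def T_sine : Prop :=
  ∀ g : ℝ → ℝ, Sm Real.pi g → Summable (fun n => |sc g n|) ∧
    ∀ x ∈ Set.Ioo (0 : ℝ) Real.pi, g x = ∑' n : ℕ, (2 / Real.pi) * sc g n *
      Real.sin (((n : ℝ) + 1) * x)

/-- (PAIR) Parseval for product tests. -/
def T_pair : Prop :=
  ∀ F₀ : ℝ × ℝ → ℝ,
    MemLp F₀ 2 (volume.restrict (Set.Ioo (0 : ℝ) Real.pi ×ˢ Set.Ioo (0 : ℝ) Real.pi)) →
    ∀ A : ℕ → ℕ → ℝ, (∀ m n : ℕ, ∫ x in Set.Ioo (0 : ℝ) Real.pi ×ˢ Set.Ioo (0 : ℝ) Real.pi,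
        F₀ x * Real.sin (((m : ℝ) + 1) * x.1) * Real.sin (((n : ℝ) + 1) * x.2)
          = (Real.pi / 2) ^ 2 * A m n) →
    ∀ g₁ g₂ : ℝ → ℝ, Sm Real.pi g₁ → Sm Real.pi g₂ →
      Summable (fun p : ℕ × ℕ => |sc g₁ p.1 * sc g₂ p.2 * A p.1 p.2|) ∧
      ∫ x in Set.Ioo (0 : ℝ) Real.pi ×ˢ Set.Ioo (0 : ℝ) Real.pi, g₁ x.1 * g₂ x.2 * F₀ x
        = ∑' p : ℕ × ℕ, sc g₁ p.1 * sc g₂ p.2 * A p.1 p.2

/-- (RED) from the frozen statement to high frequency nonnegative solutions. -/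
def T_red : Prop :=
  Frozen → ∀ T ρ : ℝ, 0 < T → 0 < ρ → ∃ c : ℤ × ℤ → ℂ, Coef c ∧ (∀ k, nm k < 2 * ρ → c k = 0) ∧
    (∀ t : ℝ, |t| ≤ T → ∀ z ∈ QQ, 0 ≤ u c t z) ∧
      ∃ z ∈ Set.Ioo (0 : ℝ) 1 ×ˢ Set.Ioo (0 : ℝ) 1, u c 0 z ≠ 0

/-- final assembly -/
theorem final_of (hcore : T_core) (hred : T_red) : ¬ Frozen := by
  intro hF
  obtain ⟨T, ρ, hT, hρ, h⟩ := hcore
  obtain ⟨c, hc, hlow, hpos, z, hz, hne⟩ := hred hF T ρ hT hρ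
  exact hne (h c hc hlow hpos z hz)

end Pool.Agent.H28.VM
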