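import Pool.Agent.H28.VM.Basic
import Pool.Agent.H28.VM.TargetsR

set_option autoImplicit false

open MeasureTheory

namespace Pool.Agent.H28.VM

theorem winw_nonneg (w : ℤ × ℤ) (J : ℕ) (l : ℤ) : 0 ≤ win J (l * w.1) * win J (l * w.2) :=
  mul_nonneg (win_nonneg _ _) (win_nonneg _ _)

theorem winw_le {w : ℤ × ℤ} (hw : w ∈ WW) (J : ℕ) (l : ℤ) :
    win J (l * w.1) * win J (l * w.2) ≤ win J l := by
  have h0 := win_nonneg J l
  have h1 := win_le_one J l
  have h2 := win_nonneg J 0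
  have h3 := win_le_one J 0
  rcases WW_cases hw with rfl | rfl | rfl | rfl
  · simp only [mul_one, mul_zero]; nlinarith
  · simp only [mul_one, mul_zero]; nlinarith
  · simp only [mul_one]; nlinarith
  · simp only [mul_one, mul_neg, win_neg]; nlinarith

theorem sum_winw_le {w : ℤ × ℤ} (hw : w ∈ WW) (J : ℕ) :
    ∑ l ∈ IJ J, win J (l * w.1) * win J (l * w.2) ≤ 1 := by
  rw [← win_sum J]
  exact Finset.sum_le_sum fun l _ => winw_le hw J l

/-- a sup bound for the coefficients gives the same bound for line packets -/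
theorem norm_aline_le {c : ℤ × ℤ → ℂ} {L : ℕ} {w k : ℤ × ℤ} (hw : w ∈ WW) {B : ℝ}
    (hB : ∀ l ∈ IJ (JJ L w k), ‖c (sh k l w)‖ ≤ B) (t φ : ℝ) :
    ‖aline c L w k t φ‖ ≤ B := by
  have hB0 : 0 ≤ B := (norm_nonneg _).trans (hB 0 (zero_mem_IJ _))
  unfold aline
  calc ‖∑ l ∈ IJ (JJ L w k), ((win (JJ L w k) (l * w.1) * win (JJ L w k) (l * w.2) : ℝ) : ℂ) *
        c (sh k l w) * ee ((l : ℝ) * φ - nm (sh k l w) * t)‖
      ≤ ∑ l ∈ IJ (JJ L w k), (win (JJ L w k) (l * w.1) * win (JJ L w k) (l * w.2)) * B := by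
        refine norm_sum_le_of_le _ fun l hl => ?_
        rw [norm_mul, norm_mul, norm_ee, mul_one, Complex.norm_real, Real.norm_eq_abs,
          abs_of_nonneg (winw_nonneg w _ l)]
        exact mul_le_mul_of_nonneg_left (hB l hl) (winw_nonneg w _ l)
    _ = (∑ l ∈ IJ (JJ L w k), win (JJ L w k) (l * w.1) * win (JJ L w k) (l * w.2)) * B := by
        rw [Finset.sum_mul]
    _ ≤ 1 * B := mul_le_mul_of_nonneg_right (sum_winw_le hw _) hB0
    _ = B := one_mul B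

theorem NB.mono {L : ℕ} {ρ T : ℝ} {c : ℤ × ℤ → ℂ} {N N' : ℝ} (h : NB L ρ T c N) (hN : N ≤ N') :
    NB L ρ T c N' where
  nonneg := h.nonneg.trans hN
  coef k hk hC := (h.coef k hk hC).trans
    (mul_le_mul_of_nonneg_left hN (pow_nonneg (nm_nonneg k) 4))
  line w hw k hk hn t φ ht hφ := (h.line w hw k hk hn t φ ht hφ).trans
    (mul_le_mul_of_nonneg_left hN (pow_nonneg (nm_nonneg k) 4))

theorem NB.init {L : ℕ} {ρ T : ℝ} (hρ : 1 ≤ ρ) {c : ℤ × ℤ → ℂ} (hc : Summable fun k => ‖c k‖) :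
    NB L ρ T c (∑' k, ‖c k‖) where
  nonneg := tsum_nonneg fun _ => norm_nonneg _
  coef k hk _ := by
    have h1 : ‖c k‖ ≤ ∑' k, ‖c k‖ := hc.le_tsum k fun _ _ => norm_nonneg _
    have h2 : 1 ≤ nm k ^ 4 := one_le_pow₀ (hρ.trans hk)
    have h3 : 0 ≤ ∑' k, ‖c k‖ := tsum_nonneg fun _ => norm_nonneg _
    nlinarith
  line w hw k hk _ t φ _ _ := by
    have h1 : ‖aline c L w k t φ‖ ≤ ∑' k, ‖c k‖ :=
      norm_aline_le hw (fun l _ => hc.le_tsum _ fun _ _ => norm_nonneg _) t φ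
    have h2 : 1 ≤ nm k ^ 4 := one_le_pow₀ (hρ.trans hk)
    have h3 : 0 ≤ ∑' k, ‖c k‖ := tsum_nonneg fun _ => norm_nonneg _
    nlinarith

/-- closedness in `N` -/
theorem NB.of_forall {L : ℕ} {ρ T : ℝ} {c : ℤ × ℤ → ℂ} {A : ℝ} {s : ℕ → ℝ}
    (hs : Filter.Tendsto s Filter.atTop (nhds A)) (h : ∀ n, NB L ρ T c (s n)) :
    NB L ρ T c A where
  nonneg := ge_of_tendsto' hs fun n => (h n).nonneg
  coef k hk hC := ge_of_tendsto' (hs.const_mul _) fun n => (h n).coef k hk hC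
  line w hw k hk hn t φ ht hφ :=
    ge_of_tendsto' (hs.const_mul _) fun n => (h n).line w hw k hk hn t φ ht hφ

theorem exists_cut : ∃ h : ℝ → ℝ, Cut h := by
  refine ⟨fun s => Real.smoothTransition (((1.56 : ℝ) ^ 2 - s) / ((1.56 : ℝ) ^ 2 - (1.52 : ℝ) ^ 2)),
    ?_, ?_, ?_, ?_, ?_⟩
  · exact Real.smoothTransition.contDiff.comp (by fun_prop)
  · intro s; exact Real.smoothTransition.nonneg _
  · intro s; exact Real.smoothTransition.le_one _
  · intro s hs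
    apply Real.smoothTransition.one_of_one_le
    rw [one_le_div (by norm_num)]
    linarith
  · intro s hs
    apply Real.smoothTransition.zero_of_nonpos
    apply div_nonpos_of_nonpos_of_nonneg <;> norm_num at * <;> linarith

theorem mm_nonneg {h : ℝ → ℝ} (hh : Cut h) {c : ℤ × ℤ → ℂ} {t : ℝ}
    (hu : ∀ z ∈ QQ, 0 ≤ u c t z) : 0 ≤ mm h c t := by
  unfold mm
  refine setIntegral_nonneg (measurableSet_Ioo.prod measurableSet_Ioo) fun z hz => ?_
  have h1 : 0 ≤ Real.sin z.1 := (Real.sin_pos_of_pos_of_lt_pi hz.1.1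
    (by have := hz.1.2; linarith [Real.pi_pos])).le
  have h2 : 0 ≤ Real.sin z.2 := (Real.sin_pos_of_pos_of_lt_pi hz.2.1
    (by have := hz.2.2; linarith [Real.pi_pos])).le
  exact mul_nonneg (mul_nonneg (hh.nonneg _) (mul_nonneg h1 h2)) (hu z hz)

theorem II_nonneg {h : ℝ → ℝ} (hh : Cut h) {c : ℤ × ℤ → ℂ} {T : ℝ} (hT : 0 ≤ T)
    (hu : ∀ t : ℝ, |t| ≤ T → ∀ z ∈ QQ, 0 ≤ u c t z) : 0 ≤ II h c T := by
  unfold II
  refine intervalIntegral.integral_nonneg (by linarith) fun t ht => ?_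
  exact mm_nonneg hh (hu t (abs_le.mpr ⟨ht.1, ht.2⟩))

theorem core (hNT : T_NT) (hstrip : T_strip) (hfin : T_fin) : T_core := by
  obtain ⟨h, hh⟩ := exists_cut
  obtain ⟨L, hL, hNT⟩ := hNT
  obtain ⟨ε₂, C₁, ρ₁, hε₂, hC₁, hρ₁, hNT⟩ := hNT L le_rfl h hh
  obtain ⟨ε₁, hε₁, hfin⟩ := hfin L hL
  obtain ⟨C₃, ρ₃, hC₃, hρ₃, hfin⟩ := hfin h hh
  have hε : 0 < min ε₁ ε₂ := lt_min hε₁ hε₂
  obtain ⟨T₁, C₂, hT₁, hC₂, hstrip⟩ := hstrip L hL (min ε₁ ε₂) hε
  set T := max T₁ 2100 with hTdef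
  have hT0 : 0 < T := lt_of_lt_of_le hT₁ (le_max_left _ _)
  set K := C₁ * (1 + C₂) + T * C₃ * (1 + C₂) * C₁ with hK
  have hKpos : 0 < K := by positivity
  set ρ := max (max ρ₁ ρ₃) (8 * K) with hρdef
  have hρ1 : ρ₁ ≤ ρ := (le_max_left _ _).trans (le_max_left _ _)
  have hρ3 : ρ₃ ≤ ρ := (le_max_right _ _).trans (le_max_left _ _)
  have hρK : 8 * K ≤ ρ := le_max_right _ _
  have hρ0 : 0 < ρ := lt_of_lt_of_le (by linarith) hρ1
  refine ⟨T, ρ, hT0, hρ0, fun c hc hlow hpos z _ => ?_⟩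
  have hI : 0 ≤ II h c T := II_nonneg hh hT0.le hpos
  set A := C₁ * II h c T with hA
  have hA0 : 0 ≤ A := mul_nonneg hC₁.le hI
  -- one improvement step
  have hstep : ∀ N, NB L ρ T c N → NB L ρ T c (A + N / 2) := by
    intro N hN
    have hM := hstrip T ρ c N (le_max_left _ _) hρ0 hlow hN
    have h1 := hNT (min ε₁ ε₂) hε (min_le_right _ _) T ρ c N (C₂ * N) (le_max_right _ _) hρ1 hc hN
      hM hpos
    refine h1.mono ?_
    have hN0 := hN.nonneg
    have h2 : C₁ / ρ * (N + C₂ * N) ≤ N / 2 := by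
      rw [div_mul_eq_mul_div, div_le_iff₀ hρ0]
      have h3 : C₁ * (1 + C₂) ≤ ρ / 8 := by
        have : 0 ≤ T * C₃ * (1 + C₂) * C₁ := by positivity
        linarith
      nlinarith
    linarith
  have hall : ∀ n : ℕ, NB L ρ T c (2 * A + (∑' k, ‖c k‖) * (1 / 2) ^ n) := by
    intro n
    induction n with
    | zero =>
      exact (NB.init (by linarith : (1 : ℝ) ≤ ρ) hc.sum).mono (by simp; linarith)
    | succ n ih =>
      have := hstep _ ih
      refine this.mono (le_of_eq ?_)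
      rw [pow_succ]; ring
  have hlim : Filter.Tendsto (fun n : ℕ => 2 * A + (∑' k, ‖c k‖) * (1 / 2 : ℝ) ^ n) Filter.atTop
      (nhds (2 * A)) := by
    have h1 : Filter.Tendsto (fun n : ℕ => (1 / 2 : ℝ) ^ n) Filter.atTop (nhds 0) :=
      tendsto_pow_atTop_nhds_zero_of_lt_one (by norm_num) (by norm_num)
    have h2 := (h1.const_mul (∑' k, ‖c k‖)).const_add (2 * A)
    simpa using h2
  have hNB : NB L ρ T c (2 * A) := NB.of_forall hlim hall
  have hMB := hstrip T ρ c _ (le_max_left _ _) hρ0 hlow hNB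
  have hmm : ∀ t : ℝ, |t| ≤ T → |mm h c t| ≤ C₃ / ρ * (2 * A + C₂ * (2 * A)) := fun t ht =>
    hfin (min ε₁ ε₂) hε (min_le_left _ _) T ρ c _ _ hρ3 hc hlow hNB hMB t ht
  have hIle : II h c T ≤ II h c T / 2 := by
    have h1 : ‖II h c T‖ ≤ C₃ / ρ * (2 * A + C₂ * (2 * A)) * |T - (-T)| := by
      unfold II
      refine intervalIntegral.norm_integral_le_of_norm_le_const fun t ht => ?_
      rw [Set.uIoc_of_le (by linarith)] at ht
      exact hmm t (abs_le.mpr ⟨ht.1.le, ht.2⟩)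
    rw [Real.norm_eq_abs, abs_of_nonneg hI, abs_of_nonneg (by linarith)] at h1
    refine h1.trans ?_
    have h2 : C₃ / ρ * (2 * A + C₂ * (2 * A)) * (T - -T) =
        (4 * (T * C₃ * (1 + C₂) * C₁)) / ρ * II h c T := by
      rw [hA]; field_simp; ring
    rw [h2]
    have h3 : 4 * (T * C₃ * (1 + C₂) * C₁) / ρ ≤ 1 / 2 := by
      rw [div_le_iff₀ hρ0]
      have : 0 ≤ C₁ * (1 + C₂) := by positivity
      linarith
    calc 4 * (T * C₃ * (1 + C₂) * C₁) / ρ * II h c T ≤ 1 / 2 * II h c T :=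
          mul_le_mul_of_nonneg_right h3 hI
      _ = II h c T / 2 := by ring
  have hI0 : II h c T = 0 := by linarith
  have hA00 : A = 0 := by rw [hA, hI0, mul_zero]
  have hc0 : ∀ k, c k = 0 := by
    intro k
    have := hMB.le k
    rw [hA00] at this
    simpa using this
  unfold u v
  simp [hc0]

end Pool.Agent.H28.VM
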