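import Mathlib

/-!
# Square membrane, positivity on a quarter square (MP_71a28e_an): definitions

Normalisation `2 l = π`: the membrane is `(0,π)²`, the observed quarter is `Q = (0,π/2)²`.
Everything is written on the torus `(ℝ/2πℤ)²`, with functions odd in both variables.
A solution is `u = 2 Re v`, `v(t,z) = ∑_κ c_κ e^{i(κ·z - |κ| t)}`.
-/

set_option autoImplicit false

open MeasureTheory

namespace Pool.Agent.H28.VM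

/-- Euclidean length of a lattice vector. -/
noncomputable def nm (k : ℤ × ℤ) : ℝ := Real.sqrt ((k.1 : ℝ) ^ 2 + (k.2 : ℝ) ^ 2)

/-- `k · z` -/
noncomputable def dt (k : ℤ × ℤ) (z : ℝ × ℝ) : ℝ := (k.1 : ℝ) * z.1 + (k.2 : ℝ) * z.2

/-- `e^{i x}` -/
noncomputable def ee (x : ℝ) : ℂ := Complex.exp ((x : ℂ) * Complex.I)

/-- the index interval `[-J,J]` -/
noncomputable def IJ (J : ℕ) : Finset ℤ := Finset.Icc (-(J : ℤ)) (J : ℤ)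

/-- binomial window `C(2J, J+l)/4^J` on `[-J,J]` -/
noncomputable def win (J : ℕ) (l : ℤ) : ℝ :=
  if l.natAbs ≤ J then ((2 * J).choose ((J : ℤ) + l).toNat : ℝ) / 4 ^ J else 0

/-- the four line directions `w`; the special (trapped) directions are the `w^⊥` -/
def WW : Finset (ℤ × ℤ) := {(1, 0), (0, 1), (1, 1), (1, -1)}

/-- `κ · w` -/
def al (k w : ℤ × ℤ) : ℤ := k.1 * w.1 + k.2 * w.2

/-- `κ · w^⊥`, `w^⊥ = (-w₂, w₁)` -/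
def pe (k w : ℤ × ℤ) : ℤ := k.2 * w.1 - k.1 * w.2

/-- `κ` is within angle `1/200` of `± w^⊥` -/
def near (w k : ℤ × ℤ) : Prop := 200 * |al k w| ≤ |pe k w|

/-- `κ` is not within angle `1/400` of any special direction -/
def CC (k : ℤ × ℤ) : Prop := ∀ w ∈ WW, |pe k w| ≤ 400 * |al k w|

/-- window size on the line `κ + ℤ w` -/
def JJ (L : ℕ) (w k : ℤ × ℤ) : ℕ := (pe k w).natAbs / L

/-- `κ + l w` -/
def sh (k : ℤ × ℤ) (l : ℤ) (w : ℤ × ℤ) : ℤ × ℤ := (k.1 + l * w.1, k.2 + l * w.2)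

/-- coefficient sequences: absolutely summable, odd in both variables -/
structure Coef (c : ℤ × ℤ → ℂ) : Prop where
  sum : Summable fun k => ‖c k‖
  odd1 : ∀ m n : ℤ, c (-m, n) = -c (m, n)
  odd2 : ∀ m n : ℤ, c (m, -n) = -c (m, n)

/-- half wave -/
noncomputable def v (c : ℤ × ℤ → ℂ) (t : ℝ) (z : ℝ × ℝ) : ℂ :=
  ∑' k, c k * ee (dt k z - nm k * t)

/-- the real solution -/
noncomputable def u (c : ℤ × ℤ → ℂ) (t : ℝ) (z : ℝ × ℝ) : ℝ := 2 * (v c t z).re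

/-- the observed quarter -/
def QQ : Set (ℝ × ℝ) := Set.Ioo (0 : ℝ) (Real.pi / 2) ×ˢ Set.Ioo (0 : ℝ) (Real.pi / 2)

/-- radial cutoff profile, as a function of `s = |z|²`: `1` for `|z| ≤ 1.52`, `0` for `|z| ≥ 1.56` -/
structure Cut (h : ℝ → ℝ) : Prop where
  smooth : ContDiff ℝ (⊤ : ℕ∞) h
  nonneg : ∀ s, 0 ≤ h s
  le_one : ∀ s, h s ≤ 1
  one : ∀ s, s ≤ (1.52 : ℝ) ^ 2 → h s = 1
  zero : ∀ s, (1.56 : ℝ) ^ 2 ≤ s → h s = 0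

/-- `∫ h(|z|²) e^{i k·z} dz` over the plane -/
noncomputable def ft (h : ℝ → ℝ) (k : ℤ × ℤ) : ℂ :=
  ∫ z : ℝ × ℝ, (h (z.1 ^ 2 + z.2 ^ 2) : ℂ) * ee (dt k z)

/-- `m(t) = ∫_Q h(|z|²) sin x sin y u(t,z) dz` -/
noncomputable def mm (h : ℝ → ℝ) (c : ℤ × ℤ → ℂ) (t : ℝ) : ℝ :=
  ∫ z in QQ, h (z.1 ^ 2 + z.2 ^ 2) * (Real.sin z.1 * Real.sin z.2) * u c t z

/-- `I = ∫_{-T}^{T} m(t) dt` -/
noncomputable def II (h : ℝ → ℝ) (c : ℤ × ℤ → ℂ) (T : ℝ) : ℝ := ∫ t in (-T)..T, mm h c t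

/-- 2D packet functional centred at frequency `κ` and position `z₀` at time `t` -/
noncomputable def apk (c : ℤ × ℤ → ℂ) (J : ℕ) (k : ℤ × ℤ) (t : ℝ) (z₀ : ℝ × ℝ) : ℂ :=
  ∑ j ∈ IJ J ×ˢ IJ J, ((win J j.1 * win J j.2 : ℝ) : ℂ) * c (k + j) *
    ee (dt j z₀ - nm (k + j) * t)

/-- line packet functional: line `κ + ℤ w`, window centred at `κ`, offset `φ` at time `t` -/
noncomputable def aline (c : ℤ × ℤ → ℂ) (L : ℕ) (w k : ℤ × ℤ) (t φ : ℝ) : ℂ :=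
  ∑ l ∈ IJ (JJ L w k), ((win (JJ L w k) (l * w.1) * win (JJ L w k) (l * w.2) : ℝ) : ℂ) *
    c (sh k l w) * ee ((l : ℝ) * φ - nm (sh k l w) * t)

/-- the polynomial bounds (size `N`) -/
structure NB (L : ℕ) (ρ T : ℝ) (c : ℤ × ℤ → ℂ) (N : ℝ) : Prop where
  nonneg : 0 ≤ N
  coef : ∀ k, ρ ≤ nm k → CC k → ‖c k‖ ≤ nm k ^ 4 * N
  line : ∀ w ∈ WW, ∀ k, ρ ≤ nm k → near w k → ∀ t φ : ℝ, |t| ≤ T → |φ| ≤ 1 / 10 →
    ‖aline c L w k t φ‖ ≤ nm k ^ 4 * N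

/-- the exponential bound (size `M`) -/
structure MB (ε : ℝ) (c : ℤ × ℤ → ℂ) (M : ℝ) : Prop where
  nonneg : 0 ≤ M
  le : ∀ k, ‖c k‖ ≤ Real.exp (ε * nm k) * M

/-- high frequencies, in the octagonal norm -/
def High (Λ : ℝ) : Set (ℤ × ℤ) := {k | ∃ w ∈ WW, Λ * nm w < (|pe k w| : ℤ)}

/-- the packet `(κ, z₀)` at time `t` is in the disc of radius `1.45` (mod `2πℤ²`) at time `t'` -/
def vis (k : ℤ × ℤ) (z₀ : ℝ × ℝ) (t t' : ℝ) : Prop :=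
  ∃ n : ℤ × ℤ, (z₀.1 + (t' - t) * (k.1 / nm k) - 2 * Real.pi * n.1) ^ 2 +
    (z₀.2 + (t' - t) * (k.2 / nm k) - 2 * Real.pi * n.2) ^ 2 ≤ (1.45 : ℝ) ^ 2

/-- test packet (conjugate exact half wave), position `z₀` at time `t`, evaluated at `(s,z)` -/
noncomputable def Psi (J : ℕ) (k : ℤ × ℤ) (t : ℝ) (z₀ : ℝ × ℝ) (s : ℝ) (z : ℝ × ℝ) : ℂ :=
  ∑ j ∈ IJ J ×ˢ IJ J, ((win J j.1 * win J j.2 : ℝ) : ℂ) *
    ee (dt j z₀ - dt (k + j) z + nm (k + j) * (s - t))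

/-- fundamental domain of the torus -/
def Box : Set (ℝ × ℝ) := Set.Icc (-Real.pi) Real.pi ×ˢ Set.Icc (-Real.pi) Real.pi

end Pool.Agent.H28.VM
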