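import Pool.Agent.H28.VM.Defs

/-!
# Square membrane (MP_71a28e_an, S05034): exact targets

Paper proof of each target: table `vm_modules`, column `proof`.
A module may take the targets of other modules as hypotheses.
-/

set_option autoImplicit false

open MeasureTheory

namespace Pool.Agent.H28.VM

/-- (MULT) one variable multiplier lemma. -/
def T_mult : Prop :=
  ∀ a : ℝ, 0 < a → a ≤ 1 → ∀ J : ℕ, 1 ≤ J → ∀ (E : ℂ → ℂ) (q : ℝ),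
    DifferentiableOn ℂ E (Metric.ball 0 (3 * J)) →
    (∀ s ∈ Metric.ball (0 : ℂ) (3 * J), ‖E s‖ ≤ q) →
    ∀ θ : ℝ, (∀ n : ℤ, a ≤ |θ - 2 * Real.pi * n|) →
      ‖∑ l ∈ IJ J, (win J l : ℂ) * E (l : ℂ) * ee ((l : ℝ) * θ)‖ ≤
        4 * q * Real.exp (-(a ^ 2 * J / 10))

/-- (PACK) packet localisation after propagation. -/
def T_packet : Prop :=
  ∀ T₀ : ℝ, 0 < T₀ → ∀ a : ℝ, 0 < a → a ≤ 1 → ∃ L₀ : ℕ, 1 ≤ L₀ ∧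
    ∀ J : ℕ, 1 ≤ J → ∀ k : ℤ × ℤ, (L₀ : ℝ) * J ≤ nm k → ∀ s : ℝ, |s| ≤ T₀ → ∀ θ : ℝ × ℝ,
      ((∀ n : ℤ, a ≤ |θ.1 - 2 * Real.pi * n|) ∨ (∀ n : ℤ, a ≤ |θ.2 - 2 * Real.pi * n|)) →
      ‖∑ j ∈ IJ J ×ˢ IJ J, ((win J j.1 * win J j.2 : ℝ) : ℂ) *
          ee (dt j θ + s * (nm (k + j) - nm k - ((k.1 : ℝ) * j.1 + k.2 * j.2) / nm k))‖ ≤
        4 * Real.exp (-(a ^ 2 * J / 20))

/-- (ROT) near-special content of a radial cutoff is exponentially small away from offset `0`. -/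
def T_rot : Prop :=
  ∀ L : ℕ, 1000 ≤ L → ∃ c₂ C : ℝ, 0 < c₂ ∧ 0 < C ∧ ∀ h : ℝ → ℝ, Cut h →
    ∀ w ∈ WW, ∀ k k₁ : ℤ × ℤ, ∀ φ : ℝ, near w k → 4000 * nm k₁ ≤ (|pe k w| : ℤ) →
      1 / 10 ≤ |φ| → |φ| ≤ Real.pi → 2 * (L : ℤ) ≤ |pe k w| →
      ‖∑ l ∈ IJ (JJ L w k), (win (JJ L w k) l : ℂ) * ft h (sh k l w - k₁) *
          ee (-((l : ℝ) * φ))‖ ≤ C * Real.exp (-(c₂ * nm k))

/-- (DECAY) rapid decay of the Fourier transform of the cutoff. -/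
def T_decay : Prop :=
  ∀ h : ℝ → ℝ, Cut h → ∀ i : ℕ, ∃ C : ℝ, ∀ k : ℤ × ℤ, ‖ft h k‖ * nm k ^ i ≤ C

/-- (LINE) pairing along one line window. -/
def T_line : Prop :=
  ∀ L : ℕ, 1000 ≤ L → ∃ ε₁ : ℝ, 0 < ε₁ ∧ ∀ h : ℝ → ℝ, Cut h → ∃ C : ℝ, 0 < C ∧
    ∀ ε : ℝ, 0 < ε → ε ≤ ε₁ → ∀ (T ρ : ℝ) (c : ℤ × ℤ → ℂ) (N M : ℝ),
      NB L ρ T c N → MB ε c M → ∀ w ∈ WW, ∀ k k₁ : ℤ × ℤ, near w k → ρ ≤ nm k →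
        2 * (L : ℤ) ≤ |pe k w| → 4000 * nm k₁ ≤ (|pe k w| : ℤ) → ∀ t : ℝ, |t| ≤ T →
          ‖∑ l ∈ IJ (JJ L w k), ((win (JJ L w k) (l * w.1) * win (JJ L w k) (l * w.2) *
              win (JJ L w k) l : ℝ) : ℂ) *
              (c (sh k l w) * ee (-(nm (sh k l w) * t)) * ft h (sh k l w - k₁))‖ ≤
            C / nm k ^ 7 * (N + M)

/-- (HP) high frequency pairing. -/
def T_HP : Prop :=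
  ∀ L : ℕ, 1000 ≤ L → ∃ ε₁ : ℝ, 0 < ε₁ ∧ ∀ h : ℝ → ℝ, Cut h → ∃ C Λ₀ : ℝ, 0 < C ∧ 1 ≤ Λ₀ ∧
    ∀ ε : ℝ, 0 < ε → ε ≤ ε₁ → ∀ (T ρ : ℝ) (c : ℤ × ℤ → ℂ) (N M : ℝ), Summable (fun k => ‖c k‖) →
      NB L ρ T c N → MB ε c M → ∀ Λ : ℝ, Λ₀ ≤ Λ → ρ ≤ Λ → ∀ k₁ : ℤ × ℤ, 8000 * nm k₁ ≤ Λ →
        ∀ t : ℝ, |t| ≤ T →
          ‖∑' k, (High Λ).indicator (fun k => c k * ee (-(nm k * t)) * ft h (k - k₁)) k‖ ≤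
            C / Λ * (N + M)

/-- (GEOA) near-special packets with small offset are visible. -/
def T_geoA : Prop :=
  ∀ w ∈ WW, ∀ k : ℤ × ℤ, k ≠ 0 → near w k → ∀ φ τ : ℝ, |φ| ≤ 1 / 10 → ∀ T : ℝ, 20 ≤ T →
    ∀ t : ℝ, |t| ≤ T → ∃ t' : ℝ, |t'| ≤ T - 1 ∧ |t' - t| ≤ 2100 ∧
      vis k (φ * w.1 / ((w.1 : ℝ) ^ 2 + (w.2 : ℝ) ^ 2) - τ * w.2,
             φ * w.2 / ((w.1 : ℝ) ^ 2 + (w.2 : ℝ) ^ 2) + τ * w.1) t t'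

/-- (GEOC) all packets with direction in `CC` are visible. -/
def T_geoC : Prop :=
  ∀ k : ℤ × ℤ, k ≠ 0 → CC k → ∀ z₀ : ℝ × ℝ, ∃ t' : ℝ, |t'| ≤ 2000 ∧ vis k z₀ 0 t'

/-- (TESTA) main term: the cut off test is bounded by the observation at that time. -/
def T_testA : Prop :=
  ∀ h : ℝ → ℝ, Cut h → ∀ c : ℤ × ℤ → ℂ, Coef c → ∀ s : ℝ, (∀ z ∈ QQ, 0 ≤ u c s z) →
    ∀ (J : ℕ) (k : ℤ × ℤ) (t : ℝ) (z₀ : ℝ × ℝ), (J : ℝ) ≤ nm k →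
      ‖∫ z in Box, (h (z.1 ^ 2 + z.2 ^ 2) : ℂ) * Psi J k t z₀ s z * (u c s z : ℂ)‖ ≤
        16 * nm k ^ 2 * mm h c s

/-- (TESTB) error term: outside the cutoff the test pairs to almost nothing
(with `v` and with `conj v`). -/
def T_testB : Prop :=
  ∃ L₀ : ℕ, ∀ L : ℕ, L₀ ≤ L → ∀ h : ℝ → ℝ, Cut h → ∃ ε₂ C ρ₀ : ℝ, 0 < ε₂ ∧ 0 < C ∧ 1 ≤ ρ₀ ∧
    ∀ ε : ℝ, 0 < ε → ε ≤ ε₂ → ∀ (T ρ : ℝ) (c : ℤ × ℤ → ℂ) (N M : ℝ), ρ₀ ≤ ρ → Coef c →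
      NB L ρ T c N → MB ε c M → ∀ (k : ℤ × ℤ) (J : ℕ), ρ ≤ nm k → (L : ℝ) * J ≤ 2 * nm k →
        nm k ≤ 3 * L * J → ∀ (t t' s : ℝ) (z₀ : ℝ × ℝ), |s| ≤ T → |s - t'| ≤ 1 / 50 →
          |t' - t| ≤ 2100 → vis k z₀ t t' →
            ‖∫ z in Box, ((1 - h (z.1 ^ 2 + z.2 ^ 2) : ℝ) : ℂ) * Psi J k t z₀ s z * v c s z‖ ≤
              C / nm k * (N + M) ∧
            ‖∫ z in Box, ((1 - h (z.1 ^ 2 + z.2 ^ 2) : ℝ) : ℂ) * Psi J k t z₀ s z *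
              (starRingEnd ℂ) (v c s z)‖ ≤ C / nm k * (N + M)

/-- (TEST) visible packets are controlled by the observation. -/
def T_test : Prop :=
  ∃ L₀ : ℕ, ∀ L : ℕ, L₀ ≤ L → ∀ h : ℝ → ℝ, Cut h → ∃ ε₂ C ρ₀ : ℝ, 0 < ε₂ ∧ 0 < C ∧ 1 ≤ ρ₀ ∧
    ∀ ε : ℝ, 0 < ε → ε ≤ ε₂ → ∀ (T ρ : ℝ) (c : ℤ × ℤ → ℂ) (N M : ℝ), ρ₀ ≤ ρ → Coef c →
      NB L ρ T c N → MB ε c M → (∀ t : ℝ, |t| ≤ T → ∀ z ∈ QQ, 0 ≤ u c t z) →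
      ∀ (k : ℤ × ℤ) (J : ℕ), ρ ≤ nm k → (L : ℝ) * J ≤ 2 * nm k → nm k ≤ 3 * L * J →
        ∀ (t t' : ℝ) (z₀ : ℝ × ℝ), |t'| ≤ T - 1 → |t' - t| ≤ 2100 → vis k z₀ t t' →
          ‖apk c J k t z₀‖ ≤ C * nm k ^ 2 * II h c T + C / nm k * (N + M)

/-- (NT) self-improvement of the polynomial bounds. -/
def T_NT : Prop :=
  ∃ L₀ : ℕ, 1000 ≤ L₀ ∧ ∀ L : ℕ, L₀ ≤ L → ∀ h : ℝ → ℝ, Cut h → ∃ ε₂ C ρ₀ : ℝ, 0 < ε₂ ∧ 0 < C ∧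
    1 ≤ ρ₀ ∧ ∀ ε : ℝ, 0 < ε → ε ≤ ε₂ → ∀ (T ρ : ℝ) (c : ℤ × ℤ → ℂ) (N M : ℝ), 2100 ≤ T →
      ρ₀ ≤ ρ → Coef c → NB L ρ T c N → MB ε c M → (∀ t : ℝ, |t| ≤ T → ∀ z ∈ QQ, 0 ≤ u c t z) →
        NB L ρ T c (C * II h c T + C / ρ * (N + M))

/-- (STRIP) exponential bound with small exponent from the polynomial bounds, for large time. -/
def T_strip : Prop :=
  ∀ L : ℕ, 1000 ≤ L → ∀ ε : ℝ, 0 < ε → ∃ T₁ C : ℝ, 0 < T₁ ∧ 0 < C ∧ ∀ (T ρ : ℝ)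
    (c : ℤ × ℤ → ℂ) (N : ℝ), T₁ ≤ T → 0 < ρ → (∀ k, nm k < 2 * ρ → c k = 0) →
      NB L ρ T c N → MB ε c (C * N)

/-- (FIN) the observed quantity at each time is small. -/
def T_fin : Prop :=
  ∀ L : ℕ, 1000 ≤ L → ∃ ε₁ : ℝ, 0 < ε₁ ∧ ∀ h : ℝ → ℝ, Cut h → ∃ C ρ₀ : ℝ, 0 < C ∧ 1 ≤ ρ₀ ∧
    ∀ ε : ℝ, 0 < ε → ε ≤ ε₁ → ∀ (T ρ : ℝ) (c : ℤ × ℤ → ℂ) (N M : ℝ), ρ₀ ≤ ρ → Coef c →
      (∀ k, nm k < 2 * ρ → c k = 0) → NB L ρ T c N → MB ε c M →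
        ∀ t : ℝ, |t| ≤ T → |mm h c t| ≤ C / ρ * (N + M)

/-- (CORE) a high frequency solution, nonnegative on a long time interval, vanishes. -/
def T_core : Prop :=
  ∃ T ρ : ℝ, 0 < T ∧ 0 < ρ ∧ ∀ c : ℤ × ℤ → ℂ, Coef c → (∀ k, nm k < 2 * ρ → c k = 0) →
    (∀ t : ℝ, |t| ≤ T → ∀ z ∈ QQ, 0 ≤ u c t z) →
      ∀ z ∈ Set.Ioo (0 : ℝ) 1 ×ˢ Set.Ioo (0 : ℝ) 1, u c 0 z = 0

end Pool.Agent.H28.VM
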