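import Pool.Agent.H28.VM.Basic2
import Pool.Agent.H28.VM.Core

set_option autoImplicit false

open MeasureTheory

namespace Pool.Agent.H28.VM

/-! ### geometry: outside the cutoff the angle is far from the lattice -/

/-- If `p` is within `1.45` of `2πn`, `|s| ≤ 1/50`, `|e| = 1`, `z ∈ Box` with `|z| > 1.52`, then
`p + s e - z` has a coordinate at distance at least `0.03` from `2πℤ`. -/
theorem far_of_vis {p e z : ℝ × ℝ} {s : ℝ} {n : ℤ × ℤ}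
    (hp : (p.1 - 2 * Real.pi * n.1) ^ 2 + (p.2 - 2 * Real.pi * n.2) ^ 2 ≤ (1.45 : ℝ) ^ 2)
    (he : e.1 ^ 2 + e.2 ^ 2 = 1) (hs : |s| ≤ 1 / 50) (hz : z ∈ Box)
    (hz2 : (1.52 : ℝ) ^ 2 < z.1 ^ 2 + z.2 ^ 2) :
    (∀ m : ℤ, (3 / 100 : ℝ) ≤ |p.1 + s * e.1 - z.1 - 2 * Real.pi * m|) ∨
    (∀ m : ℤ, (3 / 100 : ℝ) ≤ |p.2 + s * e.2 - z.2 - 2 * Real.pi * m|) := by
  by_contra hcon
  push Not at hcon
  obtain ⟨⟨m₁, h1⟩, ⟨m₂, h2⟩⟩ := hcon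
  obtain ⟨hz1, hz3⟩ := hz
  have hpi := Real.pi_gt_d2
  -- q = p + s e - 2πn
  set a := p.1 - 2 * Real.pi * n.1 with ha
  set b := p.2 - 2 * Real.pi * n.2 with hb
  have hq : (a + s * e.1) ^ 2 + (b + s * e.2) ^ 2 ≤ (1.47 : ℝ) ^ 2 := by
    have hcs : (a * e.1 + b * e.2) ^ 2 ≤ (1.45 : ℝ) ^ 2 := by
      nlinarith [sq_nonneg (a * e.2 - b * e.1)]
    have hcs' : |a * e.1 + b * e.2| ≤ 1.45 := abs_le_of_sq_le_sq hcs (by norm_num)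
    have h3 : s * (a * e.1 + b * e.2) ≤ 1 / 50 * 1.45 := by
      calc s * (a * e.1 + b * e.2) ≤ |s * (a * e.1 + b * e.2)| := le_abs_self _
        _ = |s| * |a * e.1 + b * e.2| := abs_mul _ _
        _ ≤ 1 / 50 * 1.45 := mul_le_mul hs hcs' (abs_nonneg _) (by norm_num)
    have h4 : s ^ 2 ≤ (1 / 50) ^ 2 := by
      rw [← sq_abs]; exact pow_le_pow_left₀ (abs_nonneg s) hs 2
    have h5 : (a + s * e.1) ^ 2 + (b + s * e.2) ^ 2 =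
        (a ^ 2 + b ^ 2) + 2 * (s * (a * e.1 + b * e.2)) + s ^ 2 * (e.1 ^ 2 + e.2 ^ 2) := by ring
    rw [h5, he]
    have h6 : (1.45 : ℝ) ^ 2 + 2 * (1 / 50 * 1.45) + (1 / 50) ^ 2 * 1 = (1.47 : ℝ) ^ 2 := by norm_num
    linarith
  set q₁ := a + s * e.1 with hq₁
  set q₂ := b + s * e.2 with hq₂
  set r₁ := p.1 + s * e.1 - z.1 - 2 * Real.pi * m₁ with hr₁
  set r₂ := p.2 + s * e.2 - z.2 - 2 * Real.pi * m₂ with hr₂
  have hr1 := abs_lt.mp h1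
  have hr2 := abs_lt.mp h2
  have hq1 : |q₁| ≤ 1.47 := abs_le_of_sq_le_sq (by nlinarith [sq_nonneg q₂]) (by norm_num)
  have hq2 : |q₂| ≤ 1.47 := abs_le_of_sq_le_sq (by nlinarith [sq_nonneg q₁]) (by norm_num)
  have hq1' := abs_le.mp hq1
  have hq2' := abs_le.mp hq2
  have e1 : z.1 = q₁ - r₁ + 2 * Real.pi * ((n.1 - m₁ : ℤ) : ℝ) := by
    rw [hq₁, hr₁, ha]; push_cast; ring
  have e2 : z.2 = q₂ - r₂ + 2 * Real.pi * ((n.2 - m₂ : ℤ) : ℝ) := by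
    rw [hq₂, hr₂, hb]; push_cast; ring
  have key : ∀ (x q r : ℝ) (j : ℤ), x ∈ Set.Icc (-Real.pi) Real.pi → -1.47 ≤ q → q ≤ 1.47 →
      -(3 / 100) < r → r < 3 / 100 → x = q - r + 2 * Real.pi * (j : ℝ) → j = 0 := by
    intro x q r j hx h1 h2 h3 h4 h5
    by_contra hj
    rcases lt_or_gt_of_ne hj with h | h
    · have h6 : (j : ℝ) ≤ -1 := by exact_mod_cast Int.le_sub_one_of_lt h
      have h7 : 2 * Real.pi * (j : ℝ) ≤ 2 * Real.pi * (-1) :=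
        mul_le_mul_of_nonneg_left h6 (by linarith)
      have := hx.1
      linarith
    · have h6 : (1 : ℝ) ≤ j := by exact_mod_cast h
      have h7 : 2 * Real.pi * 1 ≤ 2 * Real.pi * (j : ℝ) :=
        mul_le_mul_of_nonneg_left h6 (by linarith)
      have := hx.2
      linarith
  have j1 := key z.1 q₁ r₁ (n.1 - m₁) hz1 hq1'.1 hq1'.2 hr1.1 hr1.2 e1
  have j2 := key z.2 q₂ r₂ (n.2 - m₂) hz3 hq2'.1 hq2'.2 hr2.1 hr2.2 e2
  rw [j1] at e1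
  rw [j2] at e2
  have f1 : z.1 = q₁ - r₁ := by simpa using e1
  have f2 : z.2 = q₂ - r₂ := by simpa using e2
  rw [f1, f2] at hz2
  -- |q₁| + |q₂| ≤ 2.08
  have hs1 : |q₁| + |q₂| ≤ 2.08 := by
    refine le_of_abs_le (abs_le_of_sq_le_sq (b := (2.08 : ℝ)) ?_ (by norm_num))
    have h6 := sq_abs q₁
    have h7 := sq_abs q₂
    have h8 := sq_nonneg (|q₁| - |q₂|)
    have h9 : (2 : ℝ) * (1.47 : ℝ) ^ 2 ≤ (2.08 : ℝ) ^ 2 := by norm_num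
    linarith [show (|q₁| + |q₂|) ^ 2 = 2 * (|q₁| ^ 2 + |q₂| ^ 2) - (|q₁| - |q₂|) ^ 2 by ring]
  have g1 : -(2 * q₁ * r₁) ≤ 2 * |q₁| * (3 / 100) := by
    calc -(2 * q₁ * r₁) ≤ |-(2 * q₁ * r₁)| := le_abs_self _
      _ = 2 * |q₁| * |r₁| := by rw [abs_neg, abs_mul, abs_mul]; norm_num
      _ ≤ 2 * |q₁| * (3 / 100) := by gcongr
  have g2 : -(2 * q₂ * r₂) ≤ 2 * |q₂| * (3 / 100) := by
    calc -(2 * q₂ * r₂) ≤ |-(2 * q₂ * r₂)| := le_abs_self _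
      _ = 2 * |q₂| * |r₂| := by rw [abs_neg, abs_mul, abs_mul]; norm_num
      _ ≤ 2 * |q₂| * (3 / 100) := by gcongr
  have g3 : r₁ ^ 2 ≤ (3 / 100) ^ 2 := by
    rw [← sq_abs]; exact pow_le_pow_left₀ (abs_nonneg _) h1.le 2
  have g4 : r₂ ^ 2 ≤ (3 / 100) ^ 2 := by
    rw [← sq_abs]; exact pow_le_pow_left₀ (abs_nonneg _) h2.le 2
  have : (q₁ - r₁) ^ 2 + (q₂ - r₂) ^ 2 =
      (q₁ ^ 2 + q₂ ^ 2) + (-(2 * q₁ * r₁)) + (-(2 * q₂ * r₂)) + r₁ ^ 2 + r₂ ^ 2 := by ring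
  rw [this] at hz2
  have g5 : (1.47 : ℝ) ^ 2 + 2 * (3 / 100) * 2.08 + (3 / 100) ^ 2 + (3 / 100) ^ 2 <
      (1.52 : ℝ) ^ 2 := by norm_num
  linarith

/-- sup bound for the test packet outside the cutoff -/
theorem norm_Psi_le {L₀ : ℕ}
    (hpack : ∀ J : ℕ, 1 ≤ J → ∀ k : ℤ × ℤ, (L₀ : ℝ) * J ≤ nm k → ∀ s : ℝ, |s| ≤ 2101 →
      ∀ θ : ℝ × ℝ,
      ((∀ n : ℤ, (3 / 100 : ℝ) ≤ |θ.1 - 2 * Real.pi * n|) ∨
        (∀ n : ℤ, (3 / 100 : ℝ) ≤ |θ.2 - 2 * Real.pi * n|)) →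
      ‖∑ j ∈ IJ J ×ˢ IJ J, ((win J j.1 * win J j.2 : ℝ) : ℂ) *
          ee (dt j θ + s * (nm (k + j) - nm k - ((k.1 : ℝ) * j.1 + k.2 * j.2) / nm k))‖ ≤
        4 * Real.exp (-((3 / 100 : ℝ) ^ 2 * J / 20)))
    {J : ℕ} (hJ : 1 ≤ J) {k : ℤ × ℤ} (hk : 0 < nm k) (hLJ : (L₀ : ℝ) * J ≤ nm k)
    {t t' s : ℝ} {z₀ : ℝ × ℝ} (hs : |s - t'| ≤ 1 / 50) (ht : |t' - t| ≤ 2100)
    (hvis : vis k z₀ t t') {z : ℝ × ℝ} (hz : z ∈ Box)
    (hz2 : (1.52 : ℝ) ^ 2 < z.1 ^ 2 + z.2 ^ 2) :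
    ‖Psi J k t z₀ s z‖ ≤ 4 * Real.exp (-((3 / 100 : ℝ) ^ 2 * J / 20)) := by
  obtain ⟨n, hn⟩ := hvis
  set θ : ℝ × ℝ := (z₀.1 + (s - t) * (k.1 / nm k) - z.1, z₀.2 + (s - t) * (k.2 / nm k) - z.2)
    with hθ
  have he : ((k.1 : ℝ) / nm k) ^ 2 + ((k.2 : ℝ) / nm k) ^ 2 = 1 := by
    rw [div_pow, div_pow, ← add_div, ← nm_sq, div_self (by positivity)]
  have hfar := far_of_vis (p := (z₀.1 + (t' - t) * (k.1 / nm k), z₀.2 + (t' - t) * (k.2 / nm k)))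
    (e := ((k.1 : ℝ) / nm k, (k.2 : ℝ) / nm k)) (z := z) (s := s - t') (n := n) hn he hs hz hz2
  have hfar' : (∀ n : ℤ, (3 / 100 : ℝ) ≤ |θ.1 - 2 * Real.pi * n|) ∨
        (∀ n : ℤ, (3 / 100 : ℝ) ≤ |θ.2 - 2 * Real.pi * n|) := by
    rcases hfar with h | h
    · left; intro m
      have h1 := h m
      have h2 : z₀.1 + (t' - t) * (k.1 / nm k) + (s - t') * (k.1 / nm k) - z.1 -
          2 * Real.pi * m = θ.1 - 2 * Real.pi * m := by rw [hθ]; ring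
      rw [← h2]; exact h1
    · right; intro m
      have h1 := h m
      have h2 : z₀.2 + (t' - t) * (k.2 / nm k) + (s - t') * (k.2 / nm k) - z.2 -
          2 * Real.pi * m = θ.2 - 2 * Real.pi * m := by rw [hθ]; ring
      rw [← h2]; exact h1
  have hst : |s - t| ≤ 2101 := by
    have h1 : s - t = (s - t') + (t' - t) := by ring
    rw [h1]
    have := abs_add_le (s - t') (t' - t)
    linarith
  have hb := hpack J hJ k hLJ (s - t) hst θ hfar'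
  have hfac : Psi J k t z₀ s z = ee (-dt k z + nm k * (s - t)) *
      ∑ j ∈ IJ J ×ˢ IJ J, ((win J j.1 * win J j.2 : ℝ) : ℂ) *
          ee (dt j θ + (s - t) * (nm (k + j) - nm k - ((k.1 : ℝ) * j.1 + k.2 * j.2) / nm k)) := by
    unfold Psi
    rw [Finset.mul_sum]
    refine Finset.sum_congr rfl fun j _ => ?_
    have h1 : dt j z₀ - dt (k + j) z + nm (k + j) * (s - t) =
        (-dt k z + nm k * (s - t)) +
        (dt j θ + (s - t) * (nm (k + j) - nm k - ((k.1 : ℝ) * j.1 + k.2 * j.2) / nm k)) := by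
      rw [hθ, dt_add]
      unfold dt
      ring
    rw [h1, ee_add]
    ring
  rw [hfac, norm_mul, norm_ee, one_mul]
  exact hb

/-- the low frequencies are in a box -/
theorem abs_le_of_not_high {Λ : ℝ} {k : ℤ × ℤ} (hk : k ∉ High Λ) :
    |(k.1 : ℝ)| ≤ Λ ∧ |(k.2 : ℝ)| ≤ Λ := by
  unfold High at hk
  simp only [Set.mem_ofPred_eq, not_exists, not_and, not_lt] at hk
  have h1 := hk (0, 1) (by simp [WW])
  have h2 := hk (1, 0) (by simp [WW])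
  have n1 : nm (0, 1) = 1 := by simp [nm]
  have n2 : nm (1, 0) = 1 := by simp [nm]
  rw [n1] at h1
  rw [n2] at h2
  unfold pe at h1 h2
  simp only [mul_zero, mul_one, zero_sub, abs_neg, sub_zero] at h1 h2
  push_cast at h1 h2
  exact ⟨h1, h2⟩

theorem nm_le_of_not_high {Λ : ℝ} {k : ℤ × ℤ} (hk : k ∉ High Λ) : nm k ≤ 2 * Λ := by
  have h := abs_le_of_not_high hk
  have := nm_le_abs_add_abs k
  linarith [h.1, h.2]

theorem lt_nm_of_high {Λ : ℝ} {k : ℤ × ℤ} (hk : k ∈ High Λ) : Λ < nm k := by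
  obtain ⟨w, hw, h⟩ := hk
  have hw1 : 1 ≤ nm w := by
    apply one_le_nm
    rcases WW_cases hw with rfl | rfl | rfl | rfl <;> decide
  have h1 : ((|pe k w| : ℤ) : ℝ) ≤ nm k * nm w := by
    push_cast
    apply abs_le_of_sq_le_sq _ (mul_nonneg (nm_nonneg _) (nm_nonneg _))
    rw [mul_pow, ← al_pe_sq]
    nlinarith [sq_nonneg (al k w : ℝ)]
  by_contra hcon
  push Not at hcon
  have : nm k * nm w ≤ Λ * nm w := mul_le_mul_of_nonneg_right hcon (nm_nonneg _)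
  linarith

/-- low part: sum over `k ∉ High Λ` -/
theorem low_sum_le {c : ℤ × ℤ → ℂ} {ε M Λ B : ℝ} (hε : 0 < ε) (hM : MB ε c M) (hΛ : 1 ≤ Λ)
    (hB : 0 ≤ B) {G : ℤ × ℤ → ℂ} (hG : ∀ k, ‖G k‖ ≤ ‖c k‖ * B) :
    ‖∑' k, (High Λ)ᶜ.indicator G k‖ ≤ 9 * Λ ^ 2 * (Real.exp (2 * ε * Λ) * M * B) := by
  classical
  set F : Finset (ℤ × ℤ) := Finset.Icc (-⌊Λ⌋) ⌊Λ⌋ ×ˢ Finset.Icc (-⌊Λ⌋) ⌊Λ⌋ with hF
  have hmem : ∀ k, k ∉ High Λ → k ∈ F := by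
    intro k hk
    have h := abs_le_of_not_high hk
    have key : ∀ m : ℤ, |(m : ℝ)| ≤ Λ → m ∈ Finset.Icc (-⌊Λ⌋) ⌊Λ⌋ := by
      intro m hm
      rw [Finset.mem_Icc, ← abs_le]
      rw [Int.le_floor]
      push_cast
      exact hm
    exact Finset.mem_product.mpr ⟨key _ h.1, key _ h.2⟩
  rw [tsum_eq_sum (s := F) (fun k hk => by
    rw [Set.indicator_of_notMem]
    intro hk2
    exact hk (hmem k hk2))]
  have hterm : ∀ k ∈ F, ‖(High Λ)ᶜ.indicator G k‖ ≤ Real.exp (2 * ε * Λ) * M * B := by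
    intro k _
    have hM0 := hM.nonneg
    by_cases hk : k ∈ (High Λ)ᶜ
    · rw [Set.indicator_of_mem hk]
      refine (hG k).trans (mul_le_mul_of_nonneg_right ?_ hB)
      refine (hM.le k).trans (mul_le_mul_of_nonneg_right ?_ hM0)
      apply Real.exp_le_exp.mpr
      have := nm_le_of_not_high hk
      nlinarith
    · rw [Set.indicator_of_notMem hk, norm_zero]; positivity
  refine (norm_sum_le_of_le _ hterm).trans ?_
  rw [Finset.sum_const, nsmul_eq_mul]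
  refine mul_le_mul_of_nonneg_right ?_ (by have := hM.nonneg; positivity)
  rw [hF, Finset.card_product, Int.card_Icc]
  have hfl : (0 : ℤ) ≤ ⌊Λ⌋ := Int.floor_nonneg.mpr (by linarith)
  have h1 : ((⌊Λ⌋ + 1 - -⌊Λ⌋).toNat : ℝ) ≤ 3 * Λ := by
    have h2 : (((⌊Λ⌋ + 1 - -⌊Λ⌋).toNat : ℤ) : ℝ) = 2 * (⌊Λ⌋ : ℝ) + 1 := by
      rw [Int.toNat_of_nonneg (by linarith)]; push_cast; ring
    have h3 : (⌊Λ⌋ : ℝ) ≤ Λ := Int.floor_le Λ
    have h4 : ((⌊Λ⌋ + 1 - -⌊Λ⌋).toNat : ℝ) = (((⌊Λ⌋ + 1 - -⌊Λ⌋).toNat : ℤ) : ℝ) := by push_cast; rfl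
    rw [h4, h2]; linarith
  push_cast
  have h5 : (0 : ℝ) ≤ ((⌊Λ⌋ + 1 - -⌊Λ⌋).toNat : ℝ) := by positivity
  nlinarith

end Pool.Agent.H28.VM
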