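import Pool.Agent.H28.VM.TestB

set_option autoImplicit false

open MeasureTheory

namespace Pool.Agent.H28.VM

theorem norm_ft_le_exists {h : ℝ → ℝ} (hh : Cut h) : ∃ B : ℝ, ∀ k, ‖ft h k‖ ≤ B := by
  refine ⟨∫ z in Box, ‖(h (z.1 ^ 2 + z.2 ^ 2) : ℂ)‖, fun k => ?_⟩
  rw [← integral_box_cut hh]
  refine (norm_integral_le_integral_norm _).trans (le_of_eq ?_)
  congr 1; funext z
  rw [norm_mul, norm_ee, mul_one]

theorem norm_box_integral_le {g : ℝ × ℝ → ℂ} {B : ℝ} (hg : ∀ z ∈ Box, ‖g z‖ ≤ B) :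
    ‖∫ z in Box, g z‖ ≤ B * (2 * Real.pi) ^ 2 := by
  have := norm_setIntegral_le_of_norm_le_const (μ := volume) (s := Box) volume_Box_lt_top hg
  rwa [volume_real_Box] at this

/-- abstract pairing bound -/
theorem pair_bound {h : ℝ → ℝ} (hh : Cut h) {c : ℤ × ℤ → ℂ} (hc : Summable fun k => ‖c k‖)
    {ε M Λ B D s : ℝ} (hε : 0 < ε) (hM : MB ε c M) (hΛ : 1 ≤ Λ) (hB : 0 ≤ B)
    {g : ℝ × ℝ → ℂ} (hg : Continuous g) (hgB : ∀ z ∈ Box, ‖g z‖ ≤ B)
    (S : Finset (ℤ × ℤ)) (w : ℤ × ℤ → ℝ) (θ : ℤ × ℤ → ℂ) (κ : ℤ × ℤ → ℤ × ℤ)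
    (hw : ∀ j ∈ S, 0 ≤ w j) (hw1 : ∑ j ∈ S, w j = 1) (hθ : ∀ j ∈ S, ‖θ j‖ = 1)
    (hhigh : ∀ k ∈ High Λ, ∫ z in Box, g z * ee (dt k z) =
      -∑ j ∈ S, (w j : ℂ) * θ j * ft h (k - κ j))
    (hHP : ∀ j ∈ S, ‖∑' k, (High Λ).indicator
      (fun k => c k * ee (-(nm k * s)) * ft h (k - κ j)) k‖ ≤ D) :
    ‖∫ z in Box, g z * v c s z‖ ≤
      D + 9 * Λ ^ 2 * (Real.exp (2 * ε * Λ) * M * (B * (2 * Real.pi) ^ 2)) := by
  rw [integral_box_mul_v hc hg s]
  set G : ℤ × ℤ → ℂ := fun k => c k * ee (-(nm k * s)) * ∫ z in Box, g z * ee (dt k z) with hG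
  have hGle : ∀ k, ‖G k‖ ≤ ‖c k‖ * (B * (2 * Real.pi) ^ 2) := by
    intro k
    rw [hG]
    simp only [norm_mul, norm_ee, mul_one]
    refine mul_le_mul_of_nonneg_left (norm_box_integral_le fun z hz => ?_) (norm_nonneg _)
    rw [norm_mul, norm_ee, mul_one]; exact hgB z hz
  have hGs : Summable fun k => ‖G k‖ :=
    Summable.of_nonneg_of_le (fun _ => norm_nonneg _) hGle (hc.mul_right _)
  have hGs' : Summable G := hGs.of_norm
  have hi : ∀ A : Set (ℤ × ℤ), Summable (A.indicator G) := fun A => hGs'.indicator A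
  have hsplit : ∑' k, G k = (∑' k, (High Λ).indicator G k) + ∑' k, (High Λ)ᶜ.indicator G k := by
    rw [← (hi _).tsum_add (hi _)]
    congr 1
    exact (Set.indicator_self_add_compl (High Λ) G).symm
  rw [hsplit]
  refine (norm_add_le _ _).trans (add_le_add ?_ (low_sum_le hε hM hΛ (by positivity) hGle))
  obtain ⟨Bf, hBf⟩ := norm_ft_le_exists hh
  have hBf0 : 0 ≤ Bf := (norm_nonneg _).trans (hBf 0)
  have hsj : ∀ j, Summable ((High Λ).indicator
      (fun k => c k * ee (-(nm k * s)) * ft h (k - κ j))) := by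
    intro j
    apply Summable.indicator
    refine Summable.of_norm_bounded (hc.mul_right Bf) fun k => ?_
    rw [norm_mul, norm_mul, norm_ee, mul_one]
    exact mul_le_mul_of_nonneg_left (hBf _) (norm_nonneg _)
  have heq : ∀ k, (High Λ).indicator G k = ∑ j ∈ S, (-((w j : ℂ) * θ j)) *
      (High Λ).indicator (fun k => c k * ee (-(nm k * s)) * ft h (k - κ j)) k := by
    intro k
    by_cases hk : k ∈ High Λ
    · rw [Set.indicator_of_mem hk, hG]
      simp only [Set.indicator_of_mem hk]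
      rw [hhigh k hk, mul_neg, Finset.mul_sum, ← Finset.sum_neg_distrib]
      refine Finset.sum_congr rfl fun j _ => ?_
      ring
    · rw [Set.indicator_of_notMem hk]
      simp only [Set.indicator_of_notMem hk, mul_zero, Finset.sum_const_zero]
  simp_rw [heq]
  rw [Summable.tsum_finsetSum (fun j _ => (hsj j).mul_left _)]
  calc ‖∑ j ∈ S, ∑' k, (-((w j : ℂ) * θ j)) *
        (High Λ).indicator (fun k => c k * ee (-(nm k * s)) * ft h (k - κ j)) k‖
      ≤ ∑ j ∈ S, w j * D := by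
        refine norm_sum_le_of_le _ fun j hj => ?_
        rw [tsum_mul_left, norm_mul, norm_neg, norm_mul, hθ j hj, mul_one, Complex.norm_real,
          Real.norm_eq_abs, abs_of_nonneg (hw j hj)]
        exact mul_le_mul_of_nonneg_left (hHP j hj) (hw j hj)
    _ = D := by rw [← Finset.sum_mul, hw1, one_mul]

theorem sum_win_prod (J : ℕ) : ∑ j ∈ IJ J ×ˢ IJ J, win J j.1 * win J j.2 = 1 := by
  rw [Finset.sum_product]
  simp_rw [← Finset.mul_sum, win_sum, mul_one]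
  exact win_sum J

theorem continuous_Psi (J : ℕ) (k : ℤ × ℤ) (t : ℝ) (z₀ : ℝ × ℝ) (s : ℝ) :
    Continuous (Psi J k t z₀ s) := by
  unfold Psi; fun_prop

/-- Fourier coefficient of the test packet -/
theorem integral_box_Psi (J : ℕ) (k : ℤ × ℤ) (t : ℝ) (z₀ : ℝ × ℝ) (s : ℝ) (k' : ℤ × ℤ)
    (hk' : ∀ j ∈ IJ J ×ˢ IJ J, k' ≠ k + j) :
    ∫ z in Box, Psi J k t z₀ s z * ee (dt k' z) = 0 := by
  have h1 : ∀ z, Psi J k t z₀ s z * ee (dt k' z) = ∑ j ∈ IJ J ×ˢ IJ J,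
      ((win J j.1 * win J j.2 : ℝ) : ℂ) * ee (dt j z₀ + nm (k + j) * (s - t)) *
        ee (dt (k' - (k + j)) z) := by
    intro z
    unfold Psi
    rw [Finset.sum_mul]
    refine Finset.sum_congr rfl fun j _ => ?_
    rw [dt_sub, mul_assoc, mul_assoc, ← ee_add, ← ee_add]
    congr 2; ring
  simp_rw [h1]
  rw [integral_finsetSum]
  · refine Finset.sum_eq_zero fun j hj => ?_
    rw [integral_const_mul, integral_box_ee, if_neg (sub_ne_zero.mpr (hk' j hj)), mul_zero]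
  · intro j _
    exact Continuous.integrableOn_of_isCompact_box (by fun_prop)

/-- Fourier coefficient of the cut off test packet -/
theorem integral_box_cut_Psi {h : ℝ → ℝ} (hh : Cut h) (J : ℕ) (k : ℤ × ℤ) (t : ℝ) (z₀ : ℝ × ℝ)
    (s : ℝ) (k' : ℤ × ℤ) :
    ∫ z in Box, (h (z.1 ^ 2 + z.2 ^ 2) : ℂ) * Psi J k t z₀ s z * ee (dt k' z) =
      ∑ j ∈ IJ J ×ˢ IJ J, ((win J j.1 * win J j.2 : ℝ) : ℂ) *
        ee (dt j z₀ + nm (k + j) * (s - t)) * ft h (k' - (k + j)) := by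
  have hch := continuous_cut hh
  have h1 : ∀ z : ℝ × ℝ, (h (z.1 ^ 2 + z.2 ^ 2) : ℂ) * Psi J k t z₀ s z * ee (dt k' z) =
      ∑ j ∈ IJ J ×ˢ IJ J,
      ((win J j.1 * win J j.2 : ℝ) : ℂ) * ee (dt j z₀ + nm (k + j) * (s - t)) *
        ((h (z.1 ^ 2 + z.2 ^ 2) : ℂ) * ee (dt (k' - (k + j)) z)) := by
    intro z
    unfold Psi
    rw [Finset.mul_sum, Finset.sum_mul]
    refine Finset.sum_congr rfl fun j _ => ?_
    have h2 : dt j z₀ - dt (k + j) z + nm (k + j) * (s - t) =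
      (dt j z₀ + nm (k + j) * (s - t)) + (-dt (k + j) z) := by ring
    rw [dt_sub, h2, ee_add _ (-dt (k + j) z), ee_sub (dt k' z)]
    ring
  simp_rw [h1]
  rw [integral_finsetSum]
  · refine Finset.sum_congr rfl fun j _ => ?_
    rw [integral_const_mul, integral_box_cut hh]
  · intro j _
    refine Continuous.integrableOn_of_isCompact_box ?_
    exact continuous_const.mul ((Complex.continuous_ofReal.comp hch).mul (by fun_prop))

theorem ft_neg {h : ℝ → ℝ} (k : ℤ × ℤ) : ft h (-k) = (starRingEnd ℂ) (ft h k) := by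
  unfold ft
  rw [← integral_conj]
  congr 1; funext z
  rw [dt_neg, ee_neg, map_mul, Complex.conj_ofReal]

end Pool.Agent.H28.VM
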