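import Pool.Agent.H28.VM.TestB2

set_option autoImplicit false

open MeasureTheory

namespace Pool.Agent.H28.VM

theorem g_coef {h : ℝ → ℝ} (hh : Cut h) (J : ℕ) (k : ℤ × ℤ) (t : ℝ) (z₀ : ℝ × ℝ) (s : ℝ)
    (k' : ℤ × ℤ) (hk' : ∀ j ∈ IJ J ×ˢ IJ J, k' ≠ k + j) :
    ∫ z in Box, ((1 - h (z.1 ^ 2 + z.2 ^ 2) : ℝ) : ℂ) * Psi J k t z₀ s z * ee (dt k' z) =
      -∑ j ∈ IJ J ×ˢ IJ J, ((win J j.1 * win J j.2 : ℝ) : ℂ) *
        ee (dt j z₀ + nm (k + j) * (s - t)) * ft h (k' - (k + j)) := by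
  rw [← integral_box_cut_Psi hh]
  have h0 := integral_box_Psi J k t z₀ s k' hk'
  have hch := continuous_cut hh
  have hP := continuous_Psi J k t z₀ s
  have h1 : ∀ z : ℝ × ℝ, ((1 - h (z.1 ^ 2 + z.2 ^ 2) : ℝ) : ℂ) * Psi J k t z₀ s z * ee (dt k' z) =
      Psi J k t z₀ s z * ee (dt k' z) -
        (h (z.1 ^ 2 + z.2 ^ 2) : ℂ) * Psi J k t z₀ s z * ee (dt k' z) := by
    intro z; push_cast; ring
  simp_rw [h1]
  rw [integral_sub, h0, zero_sub]
  · exact Continuous.integrableOn_of_isCompact_box (by fun_prop)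
  · refine Continuous.integrableOn_of_isCompact_box ?_
    exact ((Complex.continuous_ofReal.comp hch).mul hP).mul (by fun_prop)

theorem cube_mul_exp_le {a x : ℝ} (ha : 0 < a) (hx : 0 ≤ x) :
    x ^ 3 * Real.exp (-(a * x)) ≤ 6 / a ^ 3 := by
  have h1 := Real.pow_div_factorial_le_exp (a * x) (by positivity) 3
  have h2 : ((Nat.factorial 3 : ℕ) : ℝ) = 6 := by norm_num [Nat.factorial]
  rw [h2, mul_pow] at h1
  rw [Real.exp_neg, ← div_eq_mul_inv, div_le_div_iff₀ (Real.exp_pos _) (by positivity)]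
  have h3 : a ^ 3 * x ^ 3 ≤ 6 * Real.exp (a * x) := by
    rw [div_le_iff₀ (by norm_num)] at h1; linarith
  linarith

theorem testB (hpack : T_packet) (hHP : T_HP) : T_testB := by
  obtain ⟨L₀, hL₀, hpack⟩ := hpack 2101 (by norm_num) (3 / 100) (by norm_num) (by norm_num)
  refine ⟨max 1000 (2 * L₀), fun L hL h hh => ?_⟩
  have hL1000 : 1000 ≤ L := (le_max_left _ _).trans hL
  have hL2 : 2 * L₀ ≤ L := (le_max_right _ _).trans hL
  obtain ⟨ε₁, hε₁, hHP⟩ := hHP L hL1000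
  obtain ⟨C, Λ₀, hC, hΛ₀, hHP⟩ := hHP h hh
  have hLpos : (0 : ℝ) < L := by
    have : (1000 : ℝ) ≤ L := by exact_mod_cast hL1000
    linarith
  have hLr : (1000 : ℝ) ≤ L := by exact_mod_cast hL1000
  set δ : ℝ := (3 / 100 : ℝ) ^ 2 / 20 with hδ
  have hδ0 : 0 < δ := by rw [hδ]; norm_num
  set c₀ : ℝ := δ / (3 * L) with hc₀
  have hc₀0 : 0 < c₀ := by rw [hc₀]; positivity
  set K₀ : ℝ := 9 * 16000 ^ 2 * (4 * (2 * Real.pi) ^ 2) with hK₀
  have hK₀0 : 0 < K₀ := by rw [hK₀]; have := Real.pi_pos; positivity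
  set K₁ : ℝ := K₀ * (6 / (c₀ / 2) ^ 3) with hK₁
  have hK₁0 : 0 < K₁ := by rw [hK₁]; positivity
  refine ⟨min ε₁ (c₀ / 64000), C + K₁, max 1 Λ₀, lt_min hε₁ (by positivity), by positivity,
    le_max_left _ _, ?_⟩
  intro ε hε hε2 T ρ c N M hρ hc hNB hMB k J hρk hLJ hkLJ t t' s z₀ hsT hst' htt' hvis
  have hR1 : 1 ≤ nm k := (le_max_left _ _).trans (hρ.trans hρk)
  have hR0 : 0 < nm k := by linarith
  have hJ1 : 1 ≤ J := by
    by_contra hcon
    have : J = 0 := by omega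
    rw [this] at hkLJ
    norm_num at hkLJ
    linarith
  have hL₀J : (L₀ : ℝ) * J ≤ nm k := by
    have h1 : (2 * (L₀ : ℝ)) ≤ L := by exact_mod_cast hL2
    have h2 : (2 * (L₀ : ℝ)) * J ≤ L * J := by gcongr
    linarith
  -- basic parameters
  set Λ : ℝ := 16000 * nm k with hΛ
  have hΛ1 : 1 ≤ Λ := by rw [hΛ]; linarith
  have hΛ₀Λ : Λ₀ ≤ Λ := by
    have : Λ₀ ≤ nm k := (le_max_right _ _).trans (hρ.trans hρk)
    rw [hΛ]; linarith
  have hρΛ : ρ ≤ Λ := by rw [hΛ]; linarith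
  set B : ℝ := 4 * Real.exp (-((3 / 100 : ℝ) ^ 2 * J / 20)) with hB
  have hB0 : 0 ≤ B := by rw [hB]; positivity
  have hBle : B ≤ 4 * Real.exp (-(c₀ * nm k)) := by
    rw [hB]
    gcongr
    rw [hc₀, hδ]
    rw [div_mul_eq_mul_div, div_le_iff₀ (by positivity)]
    nlinarith
  -- nm (k + j) bounds
  have hj : ∀ j ∈ IJ J ×ˢ IJ J, nm (k + j) ≤ 2 * nm k := by
    intro j hj
    rw [Finset.mem_product, mem_IJ, mem_IJ] at hj
    have h1 : nm j ≤ 2 * (J : ℝ) := by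
      refine (nm_le_abs_add_abs j).trans ?_
      have e1 : |(j.1 : ℝ)| ≤ J := by
        rw [← Int.cast_abs, Int.abs_eq_natAbs]; exact_mod_cast hj.1
      have e2 : |(j.2 : ℝ)| ≤ J := by
        rw [← Int.cast_abs, Int.abs_eq_natAbs]; exact_mod_cast hj.2
      linarith
    have h2 := nm_add_le k j
    have h3 : 2 * (J : ℝ) ≤ nm k := by
      have h4 : (4 : ℝ) * J ≤ L * J := by gcongr; linarith
      linarith
    linarith
  have hne : ∀ k' : ℤ × ℤ, Λ < nm k' → ∀ j ∈ IJ J ×ˢ IJ J, k' ≠ k + j := by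
    intro k' hk' j hjm heq
    have := hj j hjm
    rw [← heq] at this
    rw [hΛ] at hk'
    linarith
  have hHPj : ∀ κ : ℤ × ℤ, nm κ ≤ 2 * nm k → ‖∑' k', (High Λ).indicator
      (fun k' => c k' * ee (-(nm k' * s)) * ft h (k' - κ)) k'‖ ≤ C / Λ * (N + M) := by
    intro κ hκ
    refine hHP ε hε (hε2.trans (min_le_left _ _)) T ρ c N M hc.sum hNB hMB Λ hΛ₀Λ hρΛ κ ?_ s hsT
    rw [hΛ]; linarith
  -- sup bound
  have hsup : ∀ z ∈ Box, ‖((1 - h (z.1 ^ 2 + z.2 ^ 2) : ℝ) : ℂ) * Psi J k t z₀ s z‖ ≤ B := by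
    intro z hz
    by_cases hz2 : z.1 ^ 2 + z.2 ^ 2 ≤ (1.52 : ℝ) ^ 2
    · rw [hh.one _ hz2]; simpa using hB0
    · push Not at hz2
      rw [norm_mul, Complex.norm_real, Real.norm_eq_abs, abs_of_nonneg (by linarith [hh.le_one (z.1 ^ 2 + z.2 ^ 2)])]
      have h1 := norm_Psi_le hpack hJ1 hR0 hL₀J hst' htt' hvis hz hz2
      have h2 := hh.nonneg (z.1 ^ 2 + z.2 ^ 2)
      calc (1 - h (z.1 ^ 2 + z.2 ^ 2)) * ‖Psi J k t z₀ s z‖ ≤ 1 * ‖Psi J k t z₀ s z‖ := by
            gcongr; linarith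
        _ = ‖Psi J k t z₀ s z‖ := one_mul _
        _ ≤ B := h1
  have hgc : Continuous fun z : ℝ × ℝ => ((1 - h (z.1 ^ 2 + z.2 ^ 2) : ℝ) : ℂ) *
      Psi J k t z₀ s z :=
    (Complex.continuous_ofReal.comp (continuous_const.sub (continuous_cut hh))).mul
      (continuous_Psi J k t z₀ s)
  -- final numeric bound
  have hM0 := hMB.nonneg
  have hN0 := hNB.nonneg
  have hfinal : C / Λ * (N + M) + 9 * Λ ^ 2 * (Real.exp (2 * ε * Λ) * M *
      (B * (2 * Real.pi) ^ 2)) ≤ (C + K₁) / nm k * (N + M) := by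
    have h1 : C / Λ * (N + M) ≤ C / nm k * (N + M) := by
      gcongr; rw [hΛ]; linarith
    have h2 : Real.exp (2 * ε * Λ) * B ≤ 4 * Real.exp (-(c₀ / 2 * nm k)) := by
      calc Real.exp (2 * ε * Λ) * B ≤ Real.exp (c₀ / 2 * nm k) * (4 * Real.exp (-(c₀ * nm k))) := by
            refine mul_le_mul (Real.exp_le_exp.mpr ?_) hBle hB0 (Real.exp_pos _).le
            have h3 : ε ≤ c₀ / 64000 := hε2.trans (min_le_right _ _)
            rw [hΛ]
            calc 2 * ε * (16000 * nm k) = 32000 * ε * nm k := by ring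
              _ ≤ 32000 * (c₀ / 64000) * nm k := by gcongr
              _ = c₀ / 2 * nm k := by ring
        _ = 4 * (Real.exp (c₀ / 2 * nm k) * Real.exp (-(c₀ * nm k))) := by ring
        _ = 4 * Real.exp (-(c₀ / 2 * nm k)) := by
            rw [← Real.exp_add]; congr 2; ring
    have h4 : 9 * Λ ^ 2 * (Real.exp (2 * ε * Λ) * M * (B * (2 * Real.pi) ^ 2)) ≤
        K₁ / nm k * M := by
      calc 9 * Λ ^ 2 * (Real.exp (2 * ε * Λ) * M * (B * (2 * Real.pi) ^ 2))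
          = 9 * Λ ^ 2 * (2 * Real.pi) ^ 2 * M * (Real.exp (2 * ε * Λ) * B) := by ring
        _ ≤ 9 * Λ ^ 2 * (2 * Real.pi) ^ 2 * M * (4 * Real.exp (-(c₀ / 2 * nm k))) := by
            gcongr
        _ = K₀ * (nm k ^ 3 * Real.exp (-(c₀ / 2 * nm k))) / nm k * M := by
            rw [hK₀, hΛ]; field_simp
        _ ≤ K₀ * (6 / (c₀ / 2) ^ 3) / nm k * M := by
            gcongr
            exact cube_mul_exp_le (by positivity) hR0.le
        _ = K₁ / nm k * M := by rw [hK₁]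
    have h5 : K₁ / nm k * M ≤ K₁ / nm k * (N + M) := by gcongr; linarith
    calc _ ≤ C / nm k * (N + M) + K₁ / nm k * (N + M) := add_le_add h1 (h4.trans h5)
      _ = (C + K₁) / nm k * (N + M) := by ring
  constructor
  · refine le_trans ?_ hfinal
    refine pair_bound hh hc.sum hε hMB hΛ1 hB0 hgc hsup (IJ J ×ˢ IJ J)
      (fun j => win J j.1 * win J j.2) (fun j => ee (dt j z₀ + nm (k + j) * (s - t)))
      (fun j => k + j) (fun j _ => mul_nonneg (win_nonneg _ _) (win_nonneg _ _)) (sum_win_prod J)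
      (fun j _ => norm_ee _) ?_ (fun j hjm => hHPj _ (hj j hjm))
    intro k' hk'
    exact g_coef hh J k t z₀ s k' (hne k' (lt_nm_of_high hk'))
  · have hconj : ∫ z in Box, ((1 - h (z.1 ^ 2 + z.2 ^ 2) : ℝ) : ℂ) * Psi J k t z₀ s z *
        (starRingEnd ℂ) (v c s z) = (starRingEnd ℂ) (∫ z in Box,
          (starRingEnd ℂ) (((1 - h (z.1 ^ 2 + z.2 ^ 2) : ℝ) : ℂ) * Psi J k t z₀ s z) *
            v c s z) := by
      rw [← integral_conj]
      congr 1; funext z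
      rw [map_mul, Complex.conj_conj]
    rw [hconj, RCLike.norm_conj]
    refine le_trans ?_ hfinal
    refine pair_bound hh hc.sum hε hMB hΛ1 hB0 (Complex.continuous_conj.comp hgc) ?_ (IJ J ×ˢ IJ J)
      (fun j => win J j.1 * win J j.2)
      (fun j => (starRingEnd ℂ) (ee (dt j z₀ + nm (k + j) * (s - t))))
      (fun j => -(k + j)) (fun j _ => mul_nonneg (win_nonneg _ _) (win_nonneg _ _))
      (sum_win_prod J) (fun j _ => by rw [RCLike.norm_conj, norm_ee]) ?_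
      (fun j hjm => hHPj _ (by rw [nm_neg]; exact hj j hjm))
    · intro z hz
      exact (RCLike.norm_conj _).trans_le (hsup z hz)
    · intro k' hk'
      have h1 : ∀ z : ℝ × ℝ, (Complex.continuous_conj.comp hgc |> fun _ =>
          (starRingEnd ℂ) (((1 - h (z.1 ^ 2 + z.2 ^ 2) : ℝ) : ℂ) * Psi J k t z₀ s z) *
            ee (dt k' z)) = (starRingEnd ℂ) (((1 - h (z.1 ^ 2 + z.2 ^ 2) : ℝ) : ℂ) *
              Psi J k t z₀ s z * ee (dt (-k') z)) := by
        intro z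
        simp only
        rw [map_mul (starRingEnd ℂ) (_ * _) (ee (dt (-k') z)), dt_neg, ee_neg,
          Complex.conj_conj]
      have h2 : ∫ z in Box, (starRingEnd ℂ) (((1 - h (z.1 ^ 2 + z.2 ^ 2) : ℝ) : ℂ) *
          Psi J k t z₀ s z) * ee (dt k' z) = (starRingEnd ℂ) (∫ z in Box,
            ((1 - h (z.1 ^ 2 + z.2 ^ 2) : ℝ) : ℂ) * Psi J k t z₀ s z * ee (dt (-k') z)) := by
        rw [← integral_conj]
        congr 1; funext z
        exact h1 z
      have h3 : ∀ j ∈ IJ J ×ˢ IJ J, -k' ≠ k + j := by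
        apply hne
        rw [nm_neg]; exact lt_nm_of_high hk'
      refine h2.trans ?_
      rw [g_coef hh J k t z₀ s (-k') h3, map_neg, map_sum]
      congr 1
      refine Finset.sum_congr rfl fun j _ => ?_
      rw [map_mul, map_mul, Complex.conj_ofReal]
      have h4 : -k' - (k + j) = -(k' - -(k + j)) := by ring
      rw [h4, ft_neg, Complex.conj_conj]

end Pool.Agent.H28.VM
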